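import Mathlib
import Pool.Agent.D0H91.MG.Win
import Pool.Agent.Y957.VK.Fin1

/-! Zeta sums on the range `N^{1/2} ≤ |t| ≤ N^K`. -/

set_option autoImplicit false

namespace Pool.Agent.D0H91.US

open Finset MeasureTheory
open Pool.Agent.H376R2.MR (er)
open Pool.Agent.D0H91.MG

/-- the coefficients one -/
def one : ℕ → ℂ := fun _ => 1

theorem one_le' (n : ℕ) : ‖one n‖ ≤ 1 := by
  unfold one
  simp

theorem er_log {t : ℝ} {n : ℕ} (hn : 1 ≤ n) : er t (Real.log n) = (n : ℂ) ^ (-((-t : ℝ) : ℂ) * Complex.I) := by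
  have hn0 : (n : ℂ) ≠ 0 := by exact_mod_cast (by omega : n ≠ 0)
  have h : ((Real.log n : ℝ) : ℂ) = Complex.log n := Complex.natCast_log
  unfold er
  rw [Complex.cpow_def_of_ne_zero hn0]
  congr 1
  rw [Complex.ofReal_mul, h]
  push_cast
  ring

theorem zsum (K : ℝ) (hK : 1 ≤ K) : ∃ c : ℝ, 0 < c ∧ c ≤ 1 ∧ ∃ N0 : ℕ, ∀ N : ℕ, N0 ≤ N → ∀ t : ℝ,
    (N : ℝ) ^ (1 / 2 : ℝ) ≤ |t| → |t| ≤ (N : ℝ) ^ K → ‖SD one N t‖ ≤ (N : ℝ) ^ (1 - c) := by
  obtain ⟨C, c, hc, hc1, hZ⟩ := Pool.Agent.Y957.VK.zs_all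
  obtain ⟨c1, hc1'⟩ : ∃ c1, c1 = c / (1 + 4 * K) ^ 2 := ⟨_, rfl⟩
  have hc10 : 0 < c1 := by
    rw [hc1']
    positivity
  have hc11 : c1 ≤ 1 / 10 := by
    rw [hc1']
    refine le_trans (div_le_self hc.le ?_) hc1
    nlinarith
  obtain ⟨E, hE⟩ : ∃ E, E = Real.exp (C * (1 + 4 * K) ^ C) := ⟨_, rfl⟩
  have hE0 : 0 < E := by
    rw [hE]
    positivity
  have hlim : Filter.Tendsto (fun N : ℕ => ((N : ℝ)) ^ (c1 / 2)) Filter.atTop Filter.atTop :=
    (tendsto_rpow_atTop (by positivity)).comp tendsto_natCast_atTop_atTop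
  have hlog : Filter.Tendsto (fun N : ℕ => Real.log (N : ℝ) / (N : ℝ) ^ (c1 / 2)) Filter.atTop (nhds 0) := by
    have h := (isLittleO_log_rpow_atTop (show 0 < c1 / 2 by positivity)).tendsto_div_nhds_zero
    exact h.comp tendsto_natCast_atTop_atTop
  have hev1 : ∀ᶠ N : ℕ in Filter.atTop, Real.log (N : ℝ) / (N : ℝ) ^ (c1 / 2) ≤ 1 / (8 * E) :=
    hlog.eventually_le_const (by positivity)
  have hev2 : ∀ᶠ N : ℕ in Filter.atTop, 8 * (E + 1) ≤ ((N : ℝ)) ^ (c1 / 2) := hlim.eventually_ge_atTop _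
  obtain ⟨N1, hN1⟩ := (hev1.and hev2).exists_forall_of_atTop
  refine ⟨c1 / 2, by positivity, by linarith, max N1 256, ?_⟩
  intro N hN t ht1 ht2
  have hNN : 256 ≤ N := le_trans (le_max_right _ _) hN
  obtain ⟨hl1, hl2⟩ := hN1 N (le_trans (le_max_left _ _) hN)
  have hNR : (256 : ℝ) ≤ N := by exact_mod_cast hNN
  have hN0 : (0 : ℝ) < N := by linarith
  have hN1' : (1 : ℝ) ≤ N := by linarith
  have hlogN : 0 < Real.log N := Real.log_pos (by linarith)
  have ht0 : 1 ≤ |t| := le_trans (Real.one_le_rpow hN1' (by norm_num)) ht1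
  have htpos : 0 < |t| := by linarith
  -- induction on dyadic scale
  have key : ∀ l M : ℕ, M ≤ N → M ≤ 2 ^ l → ‖SD one M t‖ ≤ (N : ℝ) ^ (1 / 2 : ℝ) + l * (E * (N : ℝ) ^ (1 - c1)) := by
    intro l
    induction l with
    | zero =>
      intro M _ hM
      have h1 : (M : ℝ) ≤ 1 := by exact_mod_cast hM
      refine (SD_le one one_le' M t).trans ?_
      have := Real.one_le_rpow hN1' (show (0 : ℝ) ≤ 1 / 2 by norm_num)
      simp only [Nat.cast_zero, zero_mul, add_zero]
      linarith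
    | succ l ih =>
      intro M hMN hM
      have hpos : 0 ≤ E * (N : ℝ) ^ (1 - c1) := by positivity
      rcases le_total (M : ℝ) ((N : ℝ) ^ (1 / 2 : ℝ)) with h | h
      · refine (SD_le one one_le' M t).trans ?_
        have : 0 ≤ ((l + 1 : ℕ) : ℝ) * (E * (N : ℝ) ^ (1 - c1)) := by positivity
        linarith
      · obtain ⟨M', hM'⟩ : ∃ M', M' = (M + 1) / 2 := ⟨_, rfl⟩
        have a1 : M' ≤ M := by
          rcases Nat.eq_zero_or_pos M with h0 | h0
          · rw [h0] at h
            have : (1 : ℝ) ≤ (N : ℝ) ^ (1 / 2 : ℝ) := Real.one_le_rpow hN1' (by norm_num)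
            simp at h
            linarith
          · omega
        have a2 : M ≤ 2 * M' := by omega
        have a3 : M' ≤ 2 ^ l := by
          rw [pow_succ] at hM
          omega
        have hsq : (16 : ℝ) ≤ (N : ℝ) ^ (1 / 2 : ℝ) := by
          calc (16 : ℝ) = (256 : ℝ) ^ (1 / 2 : ℝ) := by
                rw [← Real.sqrt_eq_rpow, show (256 : ℝ) = 16 ^ 2 by norm_num, Real.sqrt_sq (by norm_num)]
            _ ≤ _ := Real.rpow_le_rpow (by norm_num) hNR (by norm_num)
        have a4 : (N : ℝ) ^ (1 / 4 : ℝ) ≤ M' := by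
          have b1 : (M : ℝ) ≤ 2 * M' := by exact_mod_cast a2
          have b2 : (N : ℝ) ^ (1 / 2 : ℝ) = (N : ℝ) ^ (1 / 4 : ℝ) * (N : ℝ) ^ (1 / 4 : ℝ) := by
            rw [← Real.rpow_add hN0]
            norm_num
          have b3 : (4 : ℝ) ≤ (N : ℝ) ^ (1 / 4 : ℝ) := by
            by_contra hcon
            push Not at hcon
            have b4 : 0 ≤ (N : ℝ) ^ (1 / 4 : ℝ) := by positivity
            rw [b2] at hsq
            nlinarith
          nlinarith
        have a5 : (2 : ℝ) ≤ M' := by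
          have b2 : (N : ℝ) ^ (1 / 2 : ℝ) = (N : ℝ) ^ (1 / 4 : ℝ) * (N : ℝ) ^ (1 / 4 : ℝ) := by
            rw [← Real.rpow_add hN0]
            norm_num
          have b4 : 0 ≤ (N : ℝ) ^ (1 / 4 : ℝ) := by positivity
          by_contra hcon
          push Not at hcon
          rw [b2] at hsq
          nlinarith
        have a6 : 2 ≤ M' := by exact_mod_cast a5
        have hM'0 : (0 : ℝ) < M' := by linarith
        have hlM : 0 < Real.log M' := Real.log_pos (by linarith)
        obtain ⟨κ, hκ⟩ : ∃ κ, κ = Real.log |t| / Real.log M' := ⟨_, rfl⟩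
        have hM'N : (M' : ℝ) ≤ N := by exact_mod_cast a1.trans hMN
        have hlMN : Real.log M' ≤ Real.log N := Real.log_le_log hM'0 hM'N
        have hκ1 : 1 / 2 ≤ κ := by
          rw [hκ, le_div_iff₀ hlM]
          have := Real.log_le_log (by positivity) ht1
          rw [Real.log_rpow hN0] at this
          linarith
        have hκ2 : κ ≤ 4 * K := by
          rw [hκ, div_le_iff₀ hlM]
          have b1 := Real.log_le_log htpos ht2
          rw [Real.log_rpow hN0] at b1
          have b2 := Real.log_le_log (by positivity) a4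
          rw [Real.log_rpow hN0] at b2
          have b3 : K * Real.log N ≤ K * (4 * Real.log M') := mul_le_mul_of_nonneg_left (by linarith) (by linarith)
          linarith
        have htκ : |-t| = (M' : ℝ) ^ κ := by
          rw [abs_neg, Real.rpow_def_of_pos hM'0, hκ, mul_div_cancel₀ _ hlM.ne', Real.exp_log htpos]
        have hz := hZ M' M (-t) κ a6 a1 a2 hκ1 htκ
        have hsplit : SD one M t = SD one M' t + ∑ n ∈ Finset.Ioc M' M, (n : ℂ) ^ (-((-t : ℝ) : ℂ) * Complex.I) := by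
          unfold SD
          have hIcc : Icc 1 M = Icc 1 M' ∪ Ioc M' M := by
            ext n
            simp only [Finset.mem_Icc, Finset.mem_union, Finset.mem_Ioc]
            omega
          have hdis : Disjoint (Icc 1 M') (Ioc M' M) := by
            rw [Finset.disjoint_left]
            intro n h1 h2
            rw [Finset.mem_Icc] at h1
            rw [Finset.mem_Ioc] at h2
            omega
          rw [hIcc, Finset.sum_union hdis]
          congr 1
          refine Finset.sum_congr rfl fun n hn => ?_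
          rw [Finset.mem_Ioc] at hn
          rw [er_log (by omega)]
          unfold one
          rw [one_mul]
        rw [hsplit]
        refine (norm_add_le _ _).trans ?_
        have b1 := ih M' (a1.trans hMN) a3
        have b2 : Real.exp (C * (1 + κ) ^ C) * (M' : ℝ) ^ (1 - c / (1 + κ) ^ 2 : ℝ) ≤ E * (N : ℝ) ^ (1 - c1) := by
          have hκ0 : 0 ≤ 1 + κ := by linarith
          apply mul_le_mul
          · rw [hE]
            apply Real.exp_le_exp.2
            apply mul_le_mul_of_nonneg_left _ (Nat.cast_nonneg C)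
            exact pow_le_pow_left₀ hκ0 (by linarith) _
          · have d1 : c1 ≤ c / (1 + κ) ^ 2 := by
              rw [hc1']
              apply div_le_div_of_nonneg_left hc.le (by positivity)
              exact pow_le_pow_left₀ hκ0 (by linarith) _
            calc (M' : ℝ) ^ (1 - c / (1 + κ) ^ 2 : ℝ) ≤ (M' : ℝ) ^ (1 - c1) :=
                  Real.rpow_le_rpow_of_exponent_le (by linarith) (by linarith)
              _ ≤ (N : ℝ) ^ (1 - c1) := Real.rpow_le_rpow hM'0.le hM'N (by linarith)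
          · positivity
          · exact hE0.le
        have b3 := hz.trans b2
        rw [Nat.cast_succ, add_mul, one_mul]
        linarith
  have h1 := key (Nat.log 2 N + 1) N le_rfl (Nat.lt_pow_succ_log_self (by norm_num) N).le
  refine h1.trans ?_
  have h2 : ((Nat.log 2 N + 1 : ℕ) : ℝ) ≤ 4 * Real.log N := by
    have e1 : ((Nat.log 2 N : ℕ) : ℝ) * Real.log 2 ≤ Real.log N := by
      rw [← Real.log_pow]
      apply Real.log_le_log (by positivity)
      have := Nat.pow_log_le_self 2 (show N ≠ 0 by omega)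
      exact_mod_cast this
    have e2 : (1 : ℝ) / 2 ≤ Real.log 2 := by
      have := Real.log_two_gt_d9
      linarith
    have e3 : 1 ≤ Real.log N := by
      rw [Real.le_log_iff_exp_le hN0]
      have := Real.exp_one_lt_d9
      linarith
    have e4 : (0 : ℝ) ≤ ((Nat.log 2 N : ℕ) : ℝ) := Nat.cast_nonneg _
    push_cast
    nlinarith
  obtain ⟨y, hy⟩ : ∃ y, y = (N : ℝ) ^ (c1 / 2) := ⟨_, rfl⟩
  have hy0 : 0 < y := by
    rw [hy]
    positivity
  rw [← hy] at hl1 hl2
  rw [div_le_iff₀ hy0] at hl1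
  have h3 : (N : ℝ) ^ (1 - c1 / 2) = (N : ℝ) ^ (1 - c1) * y := by
    rw [hy, ← Real.rpow_add hN0]
    congr 1
    ring
  have h4 : (N : ℝ) ^ (1 / 2 : ℝ) ≤ (N : ℝ) ^ (1 - c1) := Real.rpow_le_rpow_of_exponent_le hN1' (by linarith)
  rw [h3]
  obtain ⟨z, hz⟩ : ∃ z, z = (N : ℝ) ^ (1 - c1) := ⟨_, rfl⟩
  have hz0 : 0 < z := by
    rw [hz]
    positivity
  rw [← hz] at h4 ⊢
  have h5 : ((Nat.log 2 N + 1 : ℕ) : ℝ) * (E * z) ≤ 4 * Real.log N * (E * z) :=
    mul_le_mul_of_nonneg_right h2 (by positivity)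
  have h6 : 4 * Real.log N * (E * z) ≤ z * y / 2 := by
    have : 4 * Real.log N * (E * z) ≤ 4 * (1 / (8 * E) * y) * (E * z) :=
      mul_le_mul_of_nonneg_right (by linarith) (by positivity)
    refine this.trans (le_of_eq ?_)
    field_simp
    norm_num
  have h7 : z * 2 ≤ z * y := mul_le_mul_of_nonneg_left (by linarith) hz0.le
  linarith

end Pool.Agent.D0H91.US
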