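import Mathlib
import Pool.Agent.D0H91.US.L2

/-! The deterministic comparison of sums and integrals. -/

set_option autoImplicit false

namespace Pool.Agent.D0H91.US

open Finset MeasureTheory
open scoped ENNReal
open Pool.Agent.H376R2.MR (er)
open Pool.Agent.D0H91.MG
open Pool.Agent.Y957.VK (Gn)

theorem ii_bdd {h : ℝ → ℂ} (hm : Measurable h) {M : ℝ} (hM : ∀ s, ‖h s‖ ≤ M) (a b : ℝ) :
    IntervalIntegrable h volume a b := by
  rw [intervalIntegrable_iff]
  exact Measure.integrableOn_of_bounded (M := M) (by simp) hm.aestronglyMeasurable (Filter.Eventually.of_forall hM)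

theorem jensen (h : ℝ → ℂ) (hm : Measurable h) (M : ℝ) (hM : ∀ s, ‖h s‖ ≤ M) (δ : ℝ) (hδ : 0 < δ) :
    ‖((1 / δ : ℝ) : ℂ) * ∫ s in (0 : ℝ)..δ, h s‖ₑ ^ 2 ≤ ENNReal.ofReal (1 / δ) * ∫⁻ s in Set.Ioc 0 δ, ‖h s‖ₑ ^ 2 := by
  have hM0 : 0 ≤ M := (norm_nonneg _).trans (hM 0)
  obtain ⟨A, hA⟩ : ∃ A, A = ∫ s in (0 : ℝ)..δ, ‖h s‖ := ⟨_, rfl⟩
  obtain ⟨Q, hQ⟩ : ∃ Q, Q = ∫ s in (0 : ℝ)..δ, ‖h s‖ ^ 2 := ⟨_, rfl⟩
  have i1 : IntervalIntegrable (fun s => ‖h s‖) volume 0 δ := (ii_bdd hm hM 0 δ).norm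
  have i2' : IntegrableOn (fun s => ‖h s‖ ^ 2) (Set.Ioc 0 δ) volume :=
    Measure.integrableOn_of_bounded (M := M ^ 2) (by simp) (hm.norm.pow_const 2).aestronglyMeasurable
      (Filter.Eventually.of_forall fun s => by
        rw [Real.norm_eq_abs, abs_of_nonneg (by positivity)]
        exact pow_le_pow_left₀ (norm_nonneg _) (hM s) 2)
  have i2 : IntervalIntegrable (fun s => ‖h s‖ ^ 2) volume 0 δ := by
    rw [intervalIntegrable_iff, Set.uIoc_of_le hδ.le]
    exact i2'
  have hAQ : A ^ 2 ≤ δ * Q := by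
    have h1 : 0 ≤ ∫ s in (0 : ℝ)..δ, (‖h s‖ - A / δ) ^ 2 :=
      intervalIntegral.integral_nonneg hδ.le fun s _ => sq_nonneg _
    have h2 : ∫ s in (0 : ℝ)..δ, (‖h s‖ - A / δ) ^ 2 = Q - 2 * (A / δ) * A + (A / δ) ^ 2 * δ := by
      have e1 : ∀ s, (‖h s‖ - A / δ) ^ 2 = ‖h s‖ ^ 2 - (2 * (A / δ)) * ‖h s‖ + (A / δ) ^ 2 := fun s => by ring
      simp only [e1]
      rw [intervalIntegral.integral_add (i2.sub (i1.const_mul _)) (by simp), intervalIntegral.integral_sub i2 (i1.const_mul _),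
        intervalIntegral.integral_const_mul, intervalIntegral.integral_const, ← hA, ← hQ, sub_zero, smul_eq_mul]
      ring
    rw [h2] at h1
    have h3 : Q - 2 * (A / δ) * A + (A / δ) ^ 2 * δ = Q - A ^ 2 / δ := by
      field_simp
      ring
    rw [h3] at h1
    have h4 : A ^ 2 / δ ≤ Q := by linarith
    rw [div_le_iff₀ hδ] at h4
    linarith
  have hlin : ∫⁻ s in Set.Ioc 0 δ, ‖h s‖ₑ ^ 2 = ENNReal.ofReal Q := by
    rw [hQ, intervalIntegral.integral_of_le hδ.le, ofReal_integral_eq_lintegral_ofReal i2'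
      (Filter.Eventually.of_forall fun s => by positivity)]
    refine lintegral_congr fun s => ?_
    rw [ENNReal.ofReal_pow (norm_nonneg _), ofReal_norm]
  rw [hlin, ← ENNReal.ofReal_mul (by positivity)]
  refine (Pool.Agent.Y957.VK.enorm_sq_le (b := Real.sqrt (1 / δ * Q)) ?_).trans ?_
  rotate_left
  · have hQ0 : 0 ≤ Q := by
      rw [hQ]
      exact intervalIntegral.integral_nonneg hδ.le fun s _ => by positivity
    rw [Real.sq_sqrt (by positivity)]
  · apply Real.le_sqrt_of_sq_le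
    have h1 : ‖((1 / δ : ℝ) : ℂ) * ∫ s in (0 : ℝ)..δ, h s‖ ≤ 1 / δ * A := by
      rw [norm_mul, Complex.norm_real, Real.norm_eq_abs, abs_of_pos (by positivity), hA]
      apply mul_le_mul_of_nonneg_left _ (by positivity)
      exact intervalIntegral.norm_integral_le_integral_norm hδ.le
    calc ‖((1 / δ : ℝ) : ℂ) * ∫ s in (0 : ℝ)..δ, h s‖ ^ 2 ≤ (1 / δ * A) ^ 2 := pow_le_pow_left₀ (norm_nonneg _) h1 2
      _ = 1 / δ ^ 2 * A ^ 2 := by ring
      _ ≤ 1 / δ ^ 2 * (δ * Q) := mul_le_mul_of_nonneg_left hAQ (by positivity)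
      _ = 1 / δ * Q := by
          field_simp

/-- the window integral -/
noncomputable def Ph (B : ℝ → ℂ) (δ y : ℝ) : ℂ := ∫ s in (0 : ℝ)..δ, B (y + s)

theorem Ph_lip (B : ℝ → ℂ) (hm : Measurable B) {Λ : ℝ} (hB : ∀ y, ‖B y‖ ≤ Λ) (δ y y' : ℝ) :
    ‖Ph B δ y - Ph B δ y'‖ ≤ 2 * Λ * |y - y'| := by
  unfold Ph
  have e1 : ∀ z, ∫ s in (0 : ℝ)..δ, B (z + s) = ∫ s in z..(z + δ), B s := by
    intro z
    rw [intervalIntegral.integral_comp_add_left (fun s => B s) z, add_zero]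
  have e2 : (∫ s in y..(y + δ), B s) - ∫ s in y'..(y' + δ), B s = (∫ s in y..y', B s) - ∫ s in (y + δ)..(y' + δ), B s := by
    have h1 := intervalIntegral.integral_add_adjacent_intervals (ii_bdd hm hB y y') (ii_bdd hm hB y' (y' + δ))
    have h2 := intervalIntegral.integral_add_adjacent_intervals (ii_bdd hm hB y (y + δ)) (ii_bdd hm hB (y + δ) (y' + δ))
    have h3 : (∫ s in y..(y + δ), B s) + ∫ s in (y + δ)..(y' + δ), B s = (∫ s in y..y', B s) + ∫ s in y'..(y' + δ), B s := by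
      rw [h1, h2]
    linear_combination h3
  rw [e1, e1, e2]
  refine (norm_sub_le _ _).trans ?_
  have h1 := intervalIntegral.norm_integral_le_of_norm_le_const (a := y) (b := y') (f := B) (C := Λ) fun s _ => hB s
  have h2 := intervalIntegral.norm_integral_le_of_norm_le_const (a := y + δ) (b := y' + δ) (f := B) (C := Λ) fun s _ => hB s
  have h3 : y' + δ - (y + δ) = y' - y := by ring
  rw [h3] at h2
  rw [abs_sub_comm y y']
  linarith

/-- the integral which approximates `F` -/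
noncomputable def JJ (B : ℝ → ℂ) (N : ℕ) (w : ℝ) : ℂ := ∫ u in (0 : ℝ)..N, B (w + Real.log u)

theorem JJ_lip (B : ℝ → ℂ) (hm : Measurable B) {Λ : ℝ} (hB : ∀ y, ‖B y‖ ≤ Λ) (N : ℕ) (w s : ℝ) (hs0 : 0 ≤ s)
    (hs1 : s ≤ 1) : ‖JJ B N (w + s) - JJ B N w‖ ≤ 6 * s * N * Λ := by
  have hΛ : 0 ≤ Λ := (norm_nonneg _).trans (hB 0)
  obtain ⟨f, hf⟩ : ∃ f : ℝ → ℂ, f = fun v => B (w + Real.log v) := ⟨_, rfl⟩
  have hfm : Measurable f := by
    rw [hf]
    exact hm.comp (measurable_const.add Real.measurable_log)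
  have hfb : ∀ v, ‖f v‖ ≤ Λ := by
    intro v
    rw [hf]
    exact hB _
  have hE : 0 < Real.exp s := Real.exp_pos s
  have e1 : JJ B N (w + s) = (Real.exp (-s) : ℂ) * ∫ v in (0 : ℝ)..(N * Real.exp s), f v := by
    unfold JJ
    have h1 := intervalIntegral.integral_comp_mul_right (a := 0) (b := (N : ℝ)) f hE.ne'
    rw [zero_mul] at h1
    have h2 : ∫ u in (0 : ℝ)..N, B (w + s + Real.log u) = ∫ u in (0 : ℝ)..N, f (u * Real.exp s) := by
      apply intervalIntegral.integral_congr_ae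
      refine Filter.Eventually.of_forall fun u hu => ?_
      rw [Set.uIoc_of_le (Nat.cast_nonneg N)] at hu
      rw [hf]
      simp only
      rw [Real.log_mul hu.1.ne' hE.ne', Real.log_exp]
      congr 1
      ring
    rw [h2, h1, Complex.real_smul, ← Real.exp_neg]
  have e2 : JJ B N w = ∫ v in (0 : ℝ)..N, f v := by
    unfold JJ
    rw [hf]
  have e3 := intervalIntegral.integral_add_adjacent_intervals (ii_bdd hfm hfb 0 N) (ii_bdd hfm hfb N (N * Real.exp s))
  rw [e1, e2, ← e3]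
  have h1 : ‖∫ v in (0 : ℝ)..N, f v‖ ≤ Λ * N := by
    have := intervalIntegral.norm_integral_le_of_norm_le_const (a := 0) (b := (N : ℝ)) (f := f) (C := Λ) fun s _ => hfb s
    rwa [sub_zero, abs_of_nonneg (Nat.cast_nonneg N)] at this
  have h2 : ‖∫ v in (N : ℝ)..(N * Real.exp s), f v‖ ≤ Λ * (N * (Real.exp s - 1)) := by
    have := intervalIntegral.norm_integral_le_of_norm_le_const (a := (N : ℝ)) (b := N * Real.exp s) (f := f) (C := Λ)
      fun s _ => hfb s
    have h3 : (N : ℝ) * Real.exp s - N = N * (Real.exp s - 1) := by ring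
    rw [h3, abs_of_nonneg] at this
    · exact this
    · apply mul_nonneg (Nat.cast_nonneg N)
      have := Real.add_one_le_exp s
      linarith
  have h3 : Real.exp s - 1 ≤ 2 * s := by
    have h4 := Real.abs_exp_sub_one_le (x := s) (by rw [abs_of_nonneg hs0]; exact hs1)
    rw [abs_of_nonneg hs0] at h4
    exact (le_abs_self _).trans h4
  have h4 : 1 - s ≤ Real.exp (-s) := by
    have := Real.add_one_le_exp (-s)
    linarith
  have h5 : Real.exp (-s) ≤ 1 := Real.exp_le_one_iff.2 (by linarith)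
  have h6 : (Real.exp (-s) : ℂ) * ((∫ v in (0 : ℝ)..N, f v) + ∫ v in (N : ℝ)..(N * Real.exp s), f v) - ∫ v in (0 : ℝ)..N, f v =
      (((Real.exp (-s) - 1 : ℝ)) : ℂ) * (∫ v in (0 : ℝ)..N, f v) + (Real.exp (-s) : ℂ) * ∫ v in (N : ℝ)..(N * Real.exp s), f v := by
    push_cast
    ring
  rw [h6]
  refine (norm_add_le _ _).trans ?_
  rw [norm_mul, norm_mul, Complex.norm_real, Complex.norm_real, Real.norm_eq_abs, Real.norm_eq_abs,
    abs_of_pos (Real.exp_pos _), abs_of_nonpos (by linarith)]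
  have hN0 : (0 : ℝ) ≤ N := Nat.cast_nonneg N
  have h7 : -(Real.exp (-s) - 1) * ‖∫ v in (0 : ℝ)..N, f v‖ ≤ s * (Λ * N) :=
    mul_le_mul (by linarith) h1 (norm_nonneg _) hs0
  have h8 : Real.exp (-s) * ‖∫ v in (N : ℝ)..(N * Real.exp s), f v‖ ≤ 1 * (Λ * (N * (2 * s))) := by
    apply mul_le_mul h5 _ (norm_nonneg _) zero_le_one
    refine h2.trans ?_
    apply mul_le_mul_of_nonneg_left _ hΛ
    exact mul_le_mul_of_nonneg_left h3 hN0
  have h9 : 0 ≤ s * N * Λ := by positivity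
  calc _ ≤ s * (Λ * N) + 1 * (Λ * (N * (2 * s))) := add_le_add h7 h8
    _ = 3 * (s * N * Λ) := by ring
    _ ≤ _ := by linarith

theorem Gn_avg (B : ℝ → ℂ) (hm : Measurable B) {Λ : ℝ} (hB : ∀ y, ‖B y‖ ≤ Λ) (N : ℕ) (w δ : ℝ) :
    ∫ s in (0 : ℝ)..δ, Gn one B 1 N (w + s) = ∑ n ∈ Icc 1 N, Ph B δ (w + Real.log n) := by
  unfold Gn Ph one
  rw [intervalIntegral.integral_finsetSum]
  · refine Finset.sum_congr rfl fun n _ => ?_
    apply intervalIntegral.integral_congr
    intro s _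
    simp only [one_mul]
    congr 1
    ring
  · intro n _
    simp only [one_mul]
    exact ii_bdd (hm.comp (by fun_prop)) (fun s => hB _) 0 δ

theorem JJ_avg (B : ℝ → ℂ) (hm : Measurable B) {Λ : ℝ} (hB : ∀ y, ‖B y‖ ≤ Λ) (N : ℕ) (w δ : ℝ) (hδ : 0 ≤ δ) :
    ∫ s in (0 : ℝ)..δ, JJ B N (w + s) = ∫ u in (0 : ℝ)..N, Ph B δ (w + Real.log u) := by
  unfold JJ Ph
  have hN0 : (0 : ℝ) ≤ N := Nat.cast_nonneg N
  simp only [intervalIntegral.integral_of_le hδ, intervalIntegral.integral_of_le hN0]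
  rw [integral_integral_swap]
  · refine integral_congr_ae (Filter.Eventually.of_forall fun u => ?_)
    simp only
    refine integral_congr_ae (Filter.Eventually.of_forall fun s => ?_)
    simp only
    congr 1
    ring
  · have : IsFiniteMeasure (volume.restrict (Set.Ioc (0 : ℝ) δ)) := ⟨by simp⟩
    have : IsFiniteMeasure (volume.restrict (Set.Ioc (0 : ℝ) N)) := ⟨by simp⟩
    refine Integrable.of_bound (C := Λ) ?_ (Filter.Eventually.of_forall fun p => hB _)
    have : Measurable (Function.uncurry fun s u : ℝ => B (w + s + Real.log u)) := by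
      apply hm.comp
      exact (measurable_const.add measurable_fst).add (Real.measurable_log.comp measurable_snd)
    exact this.aestronglyMeasurable

theorem sum_int (B : ℝ → ℂ) (hm : Measurable B) {Λ : ℝ} (hB : ∀ y, ‖B y‖ ≤ Λ) (w δ : ℝ) (hδ : 0 ≤ δ) : ∀ N : ℕ, 1 ≤ N →
    ‖∑ n ∈ Icc 1 N, Ph B δ (w + Real.log n) - ∫ u in (0 : ℝ)..N, Ph B δ (w + Real.log u)‖ ≤
      2 * Λ * (Real.log N + δ) := by
  have hΛ : 0 ≤ Λ := (norm_nonneg _).trans (hB 0)
  have hPb : ∀ y, ‖Ph B δ y‖ ≤ Λ * δ := by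
    intro y
    unfold Ph
    have := intervalIntegral.norm_integral_le_of_norm_le_const (a := 0) (b := δ) (f := fun s => B (y + s)) (C := Λ)
      fun s _ => hB _
    rwa [sub_zero, abs_of_nonneg hδ] at this
  have hPm : Measurable fun u : ℝ => Ph B δ (w + Real.log u) := by
    have hc : Continuous (Ph B δ) := by
      have hl : LipschitzWith (Real.toNNReal (2 * Λ)) (Ph B δ) := by
        apply LipschitzWith.of_dist_le_mul
        intro y y'
        rw [dist_eq_norm, Real.dist_eq, Real.coe_toNNReal _ (by positivity)]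
        exact Ph_lip B hm hB δ y y'
      exact hl.continuous
    exact hc.measurable.comp (measurable_const.add Real.measurable_log)
  intro N hN
  induction N, hN using Nat.le_induction with
  | base =>
    simp only [Finset.Icc_self, Finset.sum_singleton, Nat.cast_one, Real.log_one, add_zero, zero_add]
    have h1 : ‖∫ u in (0 : ℝ)..1, Ph B δ (w + Real.log u)‖ ≤ Λ * δ := by
      have := intervalIntegral.norm_integral_le_of_norm_le_const (a := 0) (b := (1 : ℝ))
        (f := fun u => Ph B δ (w + Real.log u)) (C := Λ * δ) fun s _ => hPb _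
      rwa [sub_zero, abs_one, mul_one] at this
    refine (norm_sub_le _ _).trans ?_
    have := hPb w
    linarith
  | succ N hN ih =>
    have hN0 : (1 : ℝ) ≤ N := by exact_mod_cast hN
    rw [Finset.sum_Icc_succ_top (by omega)]
    have e1 := intervalIntegral.integral_add_adjacent_intervals
      (ii_bdd hPm (fun u => hPb _) 0 N) (ii_bdd hPm (fun u => hPb _) N ((N + 1 : ℕ) : ℝ))
    rw [← e1]
    have e2 : Ph B δ (w + Real.log ((N + 1 : ℕ) : ℝ)) = ∫ u in (N : ℝ)..((N + 1 : ℕ) : ℝ), Ph B δ (w + Real.log ((N + 1 : ℕ) : ℝ)) := by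
      rw [intervalIntegral.integral_const]
      push_cast
      simp
    have h1 : ‖Ph B δ (w + Real.log ((N + 1 : ℕ) : ℝ)) - ∫ u in (N : ℝ)..((N + 1 : ℕ) : ℝ), Ph B δ (w + Real.log u)‖ ≤
        2 * Λ * (Real.log ((N + 1 : ℕ) : ℝ) - Real.log N) := by
      rw [e2, ← intervalIntegral.integral_sub (by simp) (ii_bdd hPm (fun u => hPb _) _ _)]
      have h2 := intervalIntegral.norm_integral_le_of_norm_le_const (a := (N : ℝ)) (b := ((N + 1 : ℕ) : ℝ))
        (f := fun u => Ph B δ (w + Real.log ((N + 1 : ℕ) : ℝ)) - Ph B δ (w + Real.log u))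
        (C := 2 * Λ * (Real.log ((N + 1 : ℕ) : ℝ) - Real.log N)) (fun u hu => by
          rw [Set.uIoc_of_le (by push_cast; linarith)] at hu
          refine (Ph_lip B hm hB δ _ _).trans ?_
          apply mul_le_mul_of_nonneg_left _ (by positivity)
          have h3 : Real.log N ≤ Real.log u := Real.log_le_log (by linarith) hu.1.le
          have h4 : Real.log u ≤ Real.log ((N + 1 : ℕ) : ℝ) := Real.log_le_log (by linarith [hu.1]) hu.2
          rw [show w + Real.log ((N + 1 : ℕ) : ℝ) - (w + Real.log u) = Real.log ((N + 1 : ℕ) : ℝ) - Real.log u by ring,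
            abs_of_nonneg (by linarith)]
          linarith)
      refine h2.trans (le_of_eq ?_)
      have : ((N + 1 : ℕ) : ℝ) - N = 1 := by
        push_cast
        ring
      rw [this, abs_one, mul_one]
    calc _ = ‖(∑ n ∈ Icc 1 N, Ph B δ (w + Real.log n) - ∫ u in (0 : ℝ)..N, Ph B δ (w + Real.log u)) +
          (Ph B δ (w + Real.log ((N + 1 : ℕ) : ℝ)) - ∫ u in (N : ℝ)..((N + 1 : ℕ) : ℝ), Ph B δ (w + Real.log u))‖ := by
          congr 1
          ring
      _ ≤ 2 * Λ * (Real.log N + δ) + 2 * Λ * (Real.log ((N + 1 : ℕ) : ℝ) - Real.log N) :=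
          (norm_add_le _ _).trans (add_le_add ih h1)
      _ = _ := by ring

/-- pointwise comparison -/
theorem pointwise (B : ℝ → ℂ) (hm : Measurable B) {Λ : ℝ} (hB : ∀ y, ‖B y‖ ≤ Λ) (N : ℕ) (hN : 1 ≤ N) (w δ : ℝ)
    (hδ : 0 < δ) (hδ1 : δ ≤ 1) :
    ‖((1 / δ : ℝ) : ℂ) * (∫ s in (0 : ℝ)..δ, Gn one B 1 N (w + s)) - JJ B N w‖ ≤
      2 * Λ * (Real.log N + δ) / δ + 6 * δ * N * Λ := by
  have hΛ : 0 ≤ Λ := (norm_nonneg _).trans (hB 0)
  have hN0 : (0 : ℝ) ≤ N := Nat.cast_nonneg N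
  have hδC : (δ : ℂ) ≠ 0 := by exact_mod_cast hδ.ne'
  have hJm : Measurable fun s => JJ B N (w + s) := by
    have hc : Continuous (JJ B N) := by
      rw [Metric.continuous_iff]
      intro y ε hε
      refine ⟨min 1 (ε / (6 * N * Λ + 1)), by positivity, fun z hz => ?_⟩
      have key : ∀ p q : ℝ, p ≤ q → |q - p| < min 1 (ε / (6 * N * Λ + 1)) → ‖JJ B N q - JJ B N p‖ < ε := by
        intro p q hpq h
        rw [abs_of_nonneg (by linarith), lt_min_iff] at h
        have h1 := JJ_lip B hm hB N p (q - p) (by linarith) h.1.le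
        rw [add_sub_cancel] at h1
        refine h1.trans_lt ?_
        have h2 := h.2
        rw [lt_div_iff₀ (by positivity)] at h2
        nlinarith
      rw [dist_eq_norm]
      rw [Real.dist_eq] at hz
      rcases le_total y z with h | h
      · exact key y z h hz
      · rw [norm_sub_rev]
        rw [abs_sub_comm] at hz
        exact key z y h hz
    exact hc.measurable.comp (measurable_const.add measurable_id)
  have hJb : ∀ s, ‖JJ B N (w + s)‖ ≤ Λ * N := by
    intro s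
    unfold JJ
    have := intervalIntegral.norm_integral_le_of_norm_le_const (a := 0) (b := (N : ℝ))
      (f := fun u => B (w + s + Real.log u)) (C := Λ) fun s _ => hB _
    rwa [sub_zero, abs_of_nonneg (Nat.cast_nonneg N)] at this
  have e1 : ((1 / δ : ℝ) : ℂ) * (∫ s in (0 : ℝ)..δ, Gn one B 1 N (w + s)) - JJ B N w =
      ((1 / δ : ℝ) : ℂ) * ((∫ s in (0 : ℝ)..δ, Gn one B 1 N (w + s)) - ∫ s in (0 : ℝ)..δ, JJ B N (w + s)) +
      ((1 / δ : ℝ) : ℂ) * ∫ s in (0 : ℝ)..δ, (JJ B N (w + s) - JJ B N w) := by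
    rw [intervalIntegral.integral_sub (ii_bdd hJm hJb 0 δ) (by simp), intervalIntegral.integral_const, sub_zero,
      Complex.real_smul]
    push_cast
    field_simp
    ring
  rw [e1]
  refine (norm_add_le _ _).trans ?_
  rw [norm_mul, norm_mul, Complex.norm_real, Real.norm_eq_abs, abs_of_pos (by positivity)]
  have h1 : ‖(∫ s in (0 : ℝ)..δ, Gn one B 1 N (w + s)) - ∫ s in (0 : ℝ)..δ, JJ B N (w + s)‖ ≤ 2 * Λ * (Real.log N + δ) := by
    rw [Gn_avg B hm hB, JJ_avg B hm hB N w δ hδ.le]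
    exact sum_int B hm hB w δ hδ.le N hN
  have h2 : ‖∫ s in (0 : ℝ)..δ, (JJ B N (w + s) - JJ B N w)‖ ≤ (6 * δ * N * Λ) * δ := by
    have := intervalIntegral.norm_integral_le_of_norm_le_const (a := 0) (b := δ)
      (f := fun s => JJ B N (w + s) - JJ B N w) (C := 6 * δ * N * Λ) (fun s hs => by
        rw [Set.uIoc_of_le hδ.le] at hs
        refine (JJ_lip B hm hB N w s hs.1.le (hs.2.trans hδ1)).trans ?_
        apply mul_le_mul_of_nonneg_right _ hΛ
        apply mul_le_mul_of_nonneg_right _ hN0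
        linarith [hs.2])
    rwa [sub_zero, abs_of_pos hδ] at this
  calc _ ≤ 1 / δ * (2 * Λ * (Real.log N + δ)) + 1 / δ * ((6 * δ * N * Λ) * δ) :=
        add_le_add (mul_le_mul_of_nonneg_left h1 (by positivity)) (mul_le_mul_of_nonneg_left h2 (by positivity))
    _ = _ := by
        field_simp

end Pool.Agent.D0H91.US
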