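import Mathlib
import Pool.Agent.D0H91.US.Det
import Pool.Agent.D0H91.MG.Eng2

/-! The mean square of sampled sum minus integral. -/

set_option autoImplicit false

namespace Pool.Agent.D0H91.US

open Finset MeasureTheory FourierTransform Filter
open scoped ENNReal
open Pool.Agent.H376R2.MR (er)
open Pool.Agent.D0H91.MG
open Pool.Agent.Y957.VK (Gn)

/-- the sampled sum minus the integral -/
noncomputable def DD (b : ℕ → ℂ) (k : ℝ) (N : ℕ) (w : ℝ) : ℂ :=
  ∑ n ∈ Icc 1 N, b ⌊Real.exp (k * w) * (n : ℝ) ^ k⌋₊ - ∫ u in (0 : ℝ)..N, b ⌊Real.exp (k * w) * u ^ k⌋₊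

theorem er_one_sub (t s : ℝ) : ‖1 - er t s‖ ≤ |t| * |s| := by
  unfold er
  rw [norm_sub_rev]
  have h := Real.norm_exp_I_mul_ofReal_sub_one_le (x := t * s)
  rw [mul_comm Complex.I] at h
  rw [Real.norm_eq_abs, abs_mul] at h
  exact h

theorem Wv_val (b : ℕ → ℂ) (hb0 : b 0 = 0) {k : ℝ} (hk : 0 < k) {X2 : ℕ} {v : ℝ}
    (hX : ⌊Real.exp (k * v)⌋₊ ≤ X2) : Wv b k 1 1 0 X2 v = b ⌊Real.exp (k * v)⌋₊ := by
  have hm1 : ∀ m : ℕ, 0 < m → 1 ≤ (m : ℝ) + 1 - (1 : ℕ) := by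
    intro m hm
    have : (1 : ℝ) ≤ m := by exact_mod_cast hm
    push_cast
    linarith
  rcases le_or_gt 1 (Real.exp (k * v)) with h | h
  · have e := Wv_eq b hk zero_le_one (y := 1) (X1 := 0) (X2 := X2) (v := v) (fun m hm => by linarith [hm1 m hm]) h
    rw [Nat.cast_one] at e
    rw [e]
    have h1 : 1 ≤ ⌊Real.exp (k * v)⌋₊ := Nat.le_floor (by exact_mod_cast h)
    have h2 : ⌊Real.exp (k * v) - 1⌋₊ = ⌊Real.exp (k * v)⌋₊ - 1 := by
      exact_mod_cast Nat.floor_sub_natCast (Real.exp (k * v)) 1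
    rw [h2]
    have h3 : (Ioc 0 X2).filter (fun m => m ∈ Ioc (⌊Real.exp (k * v)⌋₊ - 1) (⌊Real.exp (k * v)⌋₊ - 1 + 1)) =
        {⌊Real.exp (k * v)⌋₊} := by
      ext m
      rw [Finset.mem_filter, Finset.mem_Ioc, Finset.mem_Ioc, Finset.mem_singleton]
      omega
    rw [h3, Finset.sum_singleton]
  · have h1 : ⌊Real.exp (k * v)⌋₊ = 0 := Nat.floor_eq_zero.2 h
    rw [h1, hb0]
    have e := Wv_supp b hk zero_le_one le_rfl (y := 1) (X1 := 0) (X2 := X2) (v := v) hm1 (fun hv => by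
      have h2 : 0 ≤ k * v := mul_nonneg hk.le hv.1
      have := Real.one_le_exp h2
      linarith)
    rw [Nat.cast_one] at e
    exact e

theorem DD_eq (b : ℕ → ℂ) (hb0 : b 0 = 0) {k : ℝ} (hk : 0 < k) {X2 N : ℕ} {w : ℝ}
    (hX : ⌊Real.exp (k * w) * (N : ℝ) ^ k⌋₊ ≤ X2) :
    DD b k N w = Gn one (Wv b k 1 1 0 X2) 1 N w - JJ (Wv b k 1 1 0 X2) N w := by
  have key : ∀ u : ℝ, 0 < u → u ≤ N → Wv b k 1 1 0 X2 (w + Real.log u) = b ⌊Real.exp (k * w) * u ^ k⌋₊ := by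
    intro u hu0 huN
    have e1 : Real.exp (k * (w + Real.log u)) = Real.exp (k * w) * u ^ k := by
      rw [Real.rpow_def_of_pos hu0, ← Real.exp_add]
      congr 1
      ring
    rw [Wv_val b hb0 hk, e1]
    rw [e1]
    refine le_trans (Nat.floor_le_floor ?_) hX
    exact mul_le_mul_of_nonneg_left (Real.rpow_le_rpow hu0.le huN hk.le) (Real.exp_pos _).le
  unfold DD Gn JJ
  congr 1
  · refine Finset.sum_congr rfl fun n hn => ?_
    rw [Finset.mem_Icc] at hn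
    rw [one_mul, key n (by exact_mod_cast hn.1) (by exact_mod_cast hn.2)]
    simp [one]
  · apply intervalIntegral.integral_congr_ae
    refine Filter.Eventually.of_forall fun u hu => ?_
    rw [Set.uIoc_of_le (Nat.cast_nonneg N)] at hu
    rw [key u hu.1 hu.2]

theorem DD_sub (b : ℕ → ℂ) (k : ℝ) (N : ℕ) (w : ℝ) (z : ℂ) {Λ : ℝ} (hk : 0 < k)
    (hb : ∀ m : ℕ, m ≤ ⌊Real.exp (k * w) * (N : ℝ) ^ k⌋₊ → ‖b m‖ ≤ Λ) :
    DD (fun m => b m - z) k N w = DD b k N w := by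
  unfold DD
  have hm : Measurable fun u : ℝ => b ⌊Real.exp (k * w) * u ^ k⌋₊ :=
    (measurable_from_nat (f := b)).comp (Nat.measurable_floor.comp (by fun_prop))
  have hi : IntervalIntegrable (fun u : ℝ => b ⌊Real.exp (k * w) * u ^ k⌋₊) volume 0 N := by
    rw [intervalIntegrable_iff, Set.uIoc_of_le (Nat.cast_nonneg N)]
    refine Measure.integrableOn_of_bounded (M := Λ) (by simp) hm.aestronglyMeasurable ?_
    refine (ae_restrict_iff' measurableSet_Ioc).2 (Filter.Eventually.of_forall fun u hu => hb _ ?_)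
    exact Nat.floor_le_floor (mul_le_mul_of_nonneg_left (Real.rpow_le_rpow hu.1.le hu.2 hk.le) (Real.exp_pos _).le)
  rw [intervalIntegral.integral_sub hi (by simp), Finset.sum_sub_distrib, intervalIntegral.integral_const,
    Finset.sum_const, Nat.card_Icc, Nat.add_sub_cancel, sub_zero, Complex.real_smul, nsmul_eq_mul]
  push_cast
  ring

end Pool.Agent.D0H91.US
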