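import Mathlib
import Pool.Agent.D0H91.US.L3

/-! Averaging over the shift. -/

set_option autoImplicit false

namespace Pool.Agent.D0H91.US

open Finset MeasureTheory FourierTransform Filter
open scoped ENNReal
open Pool.Agent.H376R2.MR (er)
open Pool.Agent.D0H91.MG
open Pool.Agent.Y957.VK (Gn)

theorem enorm_add_sq (x y : ℂ) (R : ℝ) (hy : ‖y‖ ≤ R) : ‖x + y‖ₑ ^ 2 ≤ 2 * ‖x‖ₑ ^ 2 + ENNReal.ofReal (2 * R ^ 2) := by
  have hR0 : 0 ≤ R := (norm_nonneg _).trans hy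
  have h3 : ‖x + y‖ ≤ ‖x‖ + R := (norm_add_le _ _).trans (by linarith)
  have h4 : ‖x + y‖ ^ 2 ≤ 2 * ‖x‖ ^ 2 + 2 * R ^ 2 := by
    have h5 : ‖x + y‖ ^ 2 ≤ (‖x‖ + R) ^ 2 := pow_le_pow_left₀ (norm_nonneg _) h3 2
    nlinarith [sq_nonneg (‖x‖ - R)]
  rw [← ofReal_norm, ← ofReal_norm, ← ENNReal.ofReal_pow (norm_nonneg _),
    ← ENNReal.ofReal_pow (norm_nonneg _)]
  rw [show (2 : ℝ≥0∞) = ENNReal.ofReal 2 by simp, ← ENNReal.ofReal_mul (by norm_num),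
    ← ENNReal.ofReal_add (by positivity) (by positivity)]
  exact ENNReal.ofReal_le_ofReal h4

theorem Gn_meas {B : ℝ → ℂ} (hm : Measurable B) (N : ℕ) : Measurable (Gn one B 1 N) := by
  unfold Gn
  refine Finset.measurable_fun_sum _ fun n _ => ?_
  exact (hm.comp (by fun_prop)).const_mul _

theorem Gn_bd {B : ℝ → ℂ} {Λ : ℝ} (hB : ∀ y, ‖B y‖ ≤ Λ) (N : ℕ) (u : ℝ) : ‖Gn one B 1 N u‖ ≤ N * Λ := by
  unfold Gn
  refine (norm_sum_le _ _).trans ?_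
  calc _ ≤ ∑ n ∈ Icc 1 N, Λ := Finset.sum_le_sum fun n _ => by
        rw [norm_mul]
        calc _ ≤ 1 * Λ := mul_le_mul (one_le' n) (hB _) (norm_nonneg _) zero_le_one
          _ = Λ := one_mul _
    _ = _ := by
        rw [Finset.sum_const, Nat.card_Icc, Nat.add_sub_cancel, nsmul_eq_mul]

theorem core_l2 (B : ℝ → ℂ) (hm : Measurable B) {Λ : ℝ} (hB : ∀ y, ‖B y‖ ≤ Λ) (N : ℕ) (hN : 1 ≤ N)
    (δ : ℝ) (hδ : 0 < δ) (hδ1 : δ ≤ 1) (M : ℝ) (hM : 0 ≤ M)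
    (h : ∀ s : ℝ, 0 < s → s ≤ δ → ∫⁻ u, ‖Gn one B 1 N u - Gn one B 1 N (u + s)‖ₑ ^ 2 ≤ ENNReal.ofReal M) (w0 : ℝ) :
    ∫⁻ w in Set.Icc w0 (w0 + 1), ‖Gn one B 1 N w - JJ B N w‖ₑ ^ 2 ≤
      ENNReal.ofReal (2 * M + 2 * (2 * Λ * (Real.log N + δ) / δ + 6 * δ * N * Λ) ^ 2) := by
  obtain ⟨R, hR⟩ : ∃ R, R = 2 * Λ * (Real.log N + δ) / δ + 6 * δ * N * Λ := ⟨_, rfl⟩
  rw [← hR]
  have hG := Gn_meas hm N
  have hpt : ∀ w : ℝ, ‖Gn one B 1 N w - JJ B N w‖ₑ ^ 2 ≤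
      2 * (ENNReal.ofReal (1 / δ) * ∫⁻ s in Set.Ioc 0 δ, ‖Gn one B 1 N w - Gn one B 1 N (w + s)‖ₑ ^ 2) +
        ENNReal.ofReal (2 * R ^ 2) := by
    intro w
    have e1 : Gn one B 1 N w - JJ B N w =
        (((1 / δ : ℝ) : ℂ) * ∫ s in (0 : ℝ)..δ, (Gn one B 1 N w - Gn one B 1 N (w + s))) +
        (((1 / δ : ℝ) : ℂ) * (∫ s in (0 : ℝ)..δ, Gn one B 1 N (w + s)) - JJ B N w) := by
      have i1 : IntervalIntegrable (fun s => Gn one B 1 N (w + s)) volume 0 δ :=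
        ii_bdd (hG.comp (measurable_const.add measurable_id)) (fun s => Gn_bd hB N _) 0 δ
      have hδC : (δ : ℂ) ≠ 0 := by exact_mod_cast hδ.ne'
      rw [intervalIntegral.integral_sub (by simp) i1, intervalIntegral.integral_const, sub_zero, Complex.real_smul]
      push_cast
      field_simp
      ring
    rw [e1]
    refine (enorm_add_sq _ _ R ?_).trans ?_
    · rw [hR]
      exact pointwise B hm hB N hN w δ hδ hδ1
    · gcongr
      refine jensen (fun s => Gn one B 1 N w - Gn one B 1 N (w + s)) ?_ (N * Λ + N * Λ) (fun s => ?_) δ hδ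
      · exact measurable_const.sub (hG.comp (measurable_const.add measurable_id))
      · exact (norm_sub_le _ _).trans (add_le_add (Gn_bd hB N _) (Gn_bd hB N _))
  have hm2 : Measurable (Function.uncurry fun w s : ℝ => ‖Gn one B 1 N w - Gn one B 1 N (w + s)‖ₑ ^ 2) := by
    have : Measurable (fun p : ℝ × ℝ => Gn one B 1 N p.1 - Gn one B 1 N (p.1 + p.2)) :=
      (hG.comp measurable_fst).sub (hG.comp (measurable_fst.add measurable_snd))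
    exact this.enorm.pow_const 2
  have hm3 : Measurable fun w : ℝ => ∫⁻ s in Set.Ioc 0 δ, ‖Gn one B 1 N w - Gn one B 1 N (w + s)‖ₑ ^ 2 :=
    hm2.lintegral_prod_right'
  calc ∫⁻ w in Set.Icc w0 (w0 + 1), ‖Gn one B 1 N w - JJ B N w‖ₑ ^ 2 ≤
      ∫⁻ w in Set.Icc w0 (w0 + 1), (2 * (ENNReal.ofReal (1 / δ) *
        ∫⁻ s in Set.Ioc 0 δ, ‖Gn one B 1 N w - Gn one B 1 N (w + s)‖ₑ ^ 2) + ENNReal.ofReal (2 * R ^ 2)) :=
        lintegral_mono fun w => hpt w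
    _ = 2 * (ENNReal.ofReal (1 / δ) * ∫⁻ w in Set.Icc w0 (w0 + 1),
        ∫⁻ s in Set.Ioc 0 δ, ‖Gn one B 1 N w - Gn one B 1 N (w + s)‖ₑ ^ 2) + ENNReal.ofReal (2 * R ^ 2) := by
        rw [lintegral_add_right _ measurable_const, lintegral_const_mul _ (hm3.const_mul _),
          lintegral_const_mul _ hm3, setLIntegral_const, Real.volume_Icc]
        simp
    _ ≤ 2 * (ENNReal.ofReal (1 / δ) * ∫⁻ w, ∫⁻ s in Set.Ioc 0 δ, ‖Gn one B 1 N w - Gn one B 1 N (w + s)‖ₑ ^ 2) +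
        ENNReal.ofReal (2 * R ^ 2) := by
        gcongr
        exact Measure.restrict_le_self
    _ = 2 * (ENNReal.ofReal (1 / δ) * ∫⁻ s in Set.Ioc 0 δ, ∫⁻ w, ‖Gn one B 1 N w - Gn one B 1 N (w + s)‖ₑ ^ 2) +
        ENNReal.ofReal (2 * R ^ 2) := by
        rw [lintegral_lintegral_swap hm2.aemeasurable]
    _ ≤ 2 * (ENNReal.ofReal (1 / δ) * ∫⁻ s in Set.Ioc 0 δ, ENNReal.ofReal M) + ENNReal.ofReal (2 * R ^ 2) := by
        gcongr 2 * (_ * ?_) + _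
        exact setLIntegral_mono' measurableSet_Ioc fun s hs => h s hs.1 hs.2
    _ = ENNReal.ofReal (2 * M + 2 * R ^ 2) := by
        rw [setLIntegral_const, Real.volume_Ioc, sub_zero, ← ENNReal.ofReal_mul hM, ← ENNReal.ofReal_mul (by positivity),
          show (2 : ℝ≥0∞) = ENNReal.ofReal 2 by simp, ← ENNReal.ofReal_mul (by norm_num),
          ← ENNReal.ofReal_add (by positivity) (by positivity)]
        congr 2
        field_simp

end Pool.Agent.D0H91.US
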