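import Mathlib
import Pool.Agent.D0H91.US.L4

/-! The mean square with all parameters. -/

set_option autoImplicit false

namespace Pool.Agent.D0H91.US

open Finset MeasureTheory FourierTransform Filter
open scoped ENNReal
open Pool.Agent.H376R2.MR (er)
open Pool.Agent.D0H91.MG
open Pool.Agent.Y957.VK (Gn)

theorem us_l2 (k : ℝ) (hk : 0 < k) : ∃ c : ℝ, 0 < c ∧ c ≤ 1 / 10 ∧ ∀ w0 : ℝ, ∀ᶠ N : ℕ in atTop,
    ∀ (b : ℕ → ℂ) (Λ : ℝ), 0 ≤ Λ → (∀ m : ℕ, (m : ℝ) ≤ (N : ℝ) ^ (k + 1) → ‖b m‖ ≤ Λ) →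
    ∫⁻ w in Set.Icc w0 (w0 + 1), ‖DD b k N w‖ₑ ^ 2 ≤ ENNReal.ofReal (Λ ^ 2 * (N : ℝ) ^ (2 - c)) := by
  obtain ⟨c1, hc1, hc1', N1, hZ⟩ := zsum (2 * k + 5) (by linarith)
  obtain ⟨c, hc⟩ : ∃ c, c = min c1 (1 / 10) := ⟨_, rfl⟩
  have hc0 : 0 < c := by
    rw [hc]
    positivity
  have hcc1 : c ≤ c1 := by
    rw [hc]
    exact min_le_left _ _
  have hc10 : c ≤ 1 / 10 := by
    rw [hc]
    exact min_le_right _ _
  refine ⟨c, hc0, hc10, fun w0 => ?_⟩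
  filter_upwards [Pool.Agent.W301.SS.ev_log 2 (96 * ((k + 2) / k) + 2600) c hc0, ev_logge 1,
    eventually_ge_atTop (N1 + ⌈Real.exp (k * (w0 + 1))⌉₊ + 7)] with N hA hL1 hN b Λ hΛ hb
  obtain ⟨L, hL⟩ : ∃ L, L = Real.log (N : ℝ) := ⟨_, rfl⟩
  obtain ⟨n, hn⟩ : ∃ n : ℝ, n = (N : ℝ) := ⟨_, rfl⟩
  rw [← hL] at hA hL1
  have hN7 : (7 : ℝ) ≤ N := by exact_mod_cast (by omega : 7 ≤ N)
  have hNe : Real.exp (k * (w0 + 1)) ≤ N := by
    have a1 := Nat.le_ceil (Real.exp (k * (w0 + 1)))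
    have a2 : ((⌈Real.exp (k * (w0 + 1))⌉₊ : ℕ) : ℝ) ≤ N := by
      exact_mod_cast (by omega : ⌈Real.exp (k * (w0 + 1))⌉₊ ≤ N)
    linarith
  have hN0 : (0 : ℝ) < N := by linarith
  have hN1 : (1 : ℝ) ≤ N := by linarith
  have hN1' : 1 ≤ N := by omega
  obtain ⟨X2, hX2⟩ : ∃ X2 : ℕ, X2 = ⌊(N : ℝ) ^ (k + 1)⌋₊ := ⟨_, rfl⟩
  have hX2a : (X2 : ℝ) ≤ (N : ℝ) ^ (k + 1) := by
    rw [hX2]
    exact Nat.floor_le (by positivity)
  obtain ⟨b', hb'⟩ : ∃ b' : ℕ → ℂ, b' = fun m => b m - b 0 := ⟨_, rfl⟩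
  have hb'0 : b' 0 = 0 := by
    rw [hb']
    simp
  obtain ⟨Λ1, hΛ1⟩ : ∃ Λ1, Λ1 = 2 * Λ := ⟨_, rfl⟩
  have hΛ10 : 0 ≤ Λ1 := by
    rw [hΛ1]
    positivity
  have hb'1 : ∀ m ∈ Ioc 0 X2, ‖b' m‖ ≤ Λ1 := by
    intro m hm
    rw [Finset.mem_Ioc] at hm
    rw [hb', hΛ1]
    refine (norm_sub_le _ _).trans ?_
    have h1 := hb m (le_trans (by exact_mod_cast hm.2) hX2a)
    have h2 := hb 0 (by
      rw [Nat.cast_zero]
      positivity)
    linarith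
  have hm1 : ∀ m : ℕ, 0 < m → 1 ≤ (m : ℝ) + 1 - (1 : ℕ) := by
    intro m hm
    have : (1 : ℝ) ≤ m := by exact_mod_cast hm
    push_cast
    linarith
  obtain ⟨B, hB⟩ : ∃ B : ℝ → ℂ, B = Wv b' k 1 1 0 X2 := ⟨_, rfl⟩
  have hBi : Integrable B := by
    rw [hB]
    exact Wv_int _ _ _ _ _ _
  have hBb : ∀ y, ‖B y‖ ≤ Λ1 := by
    intro y
    rw [hB]
    have h := Wv_bd b' hk zero_le_one le_rfl hΛ10 (y := 1) hm1 hb'1 y
    rw [Nat.cast_one, one_mul] at h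
    exact h
  have hBm : Measurable B := by
    rw [hB]
    unfold Wv
    refine Finset.measurable_fun_sum _ fun m _ => ?_
    exact measurable_const.indicator measurableSet_Ico
  have hBs : ∫⁻ y, ‖B y‖ₑ ^ 2 ≤ ENNReal.ofReal (Λ1 ^ 2 * (Real.log (X2 + 1) / k)) := by
    rw [hB]
    have h := Wv_sq b' hk zero_le_one le_rfl hΛ10 (y := 1) hm1 hb'1
    rw [Nat.cast_one, one_mul] at h
    exact h
  have hBt : ∀ ξ : ℝ, ξ ≠ 0 → ‖𝓕 B ξ‖ ≤ X2 * Λ1 / |ξ| := by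
    intro ξ hξ
    rw [hB]
    exact four_Wv_tail b' hk zero_le_one hΛ10 (fun m hm => by
      have := hm1 m hm
      push_cast at this
      linarith) hb'1 hξ
  obtain ⟨T, hT⟩ : ∃ T, T = (N : ℝ) ^ (2 * k + 4) := ⟨_, rfl⟩
  obtain ⟨V, hV⟩ : ∃ V, V = 2 * (N : ℝ) ^ (1 - c) := ⟨_, rfl⟩
  obtain ⟨δ, hδ⟩ : ∃ δ, δ = (N : ℝ) ^ (-(3 / 5) : ℝ) := ⟨_, rfl⟩
  have hδ0 : 0 < δ := by
    rw [hδ]
    positivity
  have hδ1 : δ ≤ 1 := by
    rw [hδ]
    exact Real.rpow_le_one_of_one_le_of_nonpos hN1 (by norm_num)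
  have hT1 : 1 ≤ T := by
    rw [hT]
    exact Real.one_le_rpow hN1 (by linarith)
  have hV0 : 0 ≤ V := by
    rw [hV]
    positivity
  have hlog0 : 0 ≤ Real.log ((X2 : ℝ) + 1) := Real.log_nonneg (by
    have : (0 : ℝ) ≤ X2 := Nat.cast_nonneg X2
    linarith)
  have hL2B : 0 ≤ Λ1 ^ 2 * (Real.log (X2 + 1) / k) := by positivity
  have hSD : ∀ t : ℝ, ‖SD one N t‖ ≤ N := by
    intro t
    unfold SD
    refine (norm_sum_le _ _).trans ?_
    calc _ ≤ ∑ n ∈ Icc 1 N, (1 : ℝ) := Finset.sum_le_sum fun m _ => by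
          rw [norm_mul, er_nrm, mul_one]
          exact one_le' m
      _ = N := by
          rw [Finset.sum_const, Nat.card_Icc, Nat.add_sub_cancel, nsmul_eq_mul, mul_one]
  obtain ⟨M, hM⟩ : ∃ M, M = V ^ 2 * (Λ1 ^ 2 * (Real.log (X2 + 1) / k)) + (N : ℝ) ^ 2 * (8 * (X2 * Λ1) ^ 2) / T := ⟨_, rfl⟩
  have hM0 : 0 ≤ M := by
    rw [hM]
    have : 0 < T := by linarith
    positivity
  have hmain : ∀ s : ℝ, 0 < s → s ≤ δ → ∫⁻ u, ‖Gn one B 1 N u - Gn one B 1 N (u + s)‖ₑ ^ 2 ≤ ENNReal.ofReal M := by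
    intro s hs0 hs1
    rw [hM]
    refine l2diff N B hBi Λ1 hBb s T V (X2 * Λ1) (Λ1 ^ 2 * (Real.log (X2 + 1) / k)) hT1 hV0 hL2B ?_ ?_ hBs
    · intro ξ hξ
      rcases le_or_gt ((N : ℝ) ^ (1 / 2 : ℝ)) |2 * Real.pi * ξ| with h | h
      · have h2 : |2 * Real.pi * ξ| ≤ (N : ℝ) ^ (2 * k + 5) := by
          rw [abs_mul, abs_of_pos (show 0 < 2 * Real.pi by positivity)]
          have h3 : (N : ℝ) ^ (2 * k + 5) = (N : ℝ) * T := by
            rw [hT, show (2 * k + 5 : ℝ) = (2 * k + 4) + 1 by ring, Real.rpow_add_one hN0.ne', mul_comm]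
          rw [h3]
          have hpi := Real.pi_lt_d2
          apply mul_le_mul _ hξ (abs_nonneg _) hN0.le
          linarith
        have h3 := hZ N (by omega) (2 * Real.pi * ξ) h h2
        have h4 : ‖1 - er (2 * Real.pi * ξ) s‖ ≤ 2 := by
          refine (norm_sub_le _ _).trans ?_
          rw [er_nrm, norm_one]
          norm_num
        have h5 : (N : ℝ) ^ (1 - c1) ≤ (N : ℝ) ^ (1 - c) := Real.rpow_le_rpow_of_exponent_le hN1 (by linarith)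
        calc _ ≤ (N : ℝ) ^ (1 - c) * 2 := mul_le_mul (h3.trans h5) h4 (norm_nonneg _) (by positivity)
          _ = V := by
              rw [hV]
              ring
      · have h4 := er_one_sub (2 * Real.pi * ξ) s
        rw [abs_of_pos hs0] at h4
        have h5 : |2 * Real.pi * ξ| * s ≤ (N : ℝ) ^ (1 / 2 : ℝ) * (N : ℝ) ^ (-(3 / 5) : ℝ) := by
          rw [← hδ]
          exact mul_le_mul h.le hs1 hs0.le (by positivity)
        rw [← Real.rpow_add hN0] at h5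
        calc _ ≤ (N : ℝ) * (N : ℝ) ^ ((1 / 2 : ℝ) + -(3 / 5)) :=
              mul_le_mul (hSD _) (h4.trans h5) (norm_nonneg _) hN0.le
          _ = (N : ℝ) ^ ((1 / 2 : ℝ) + -(3 / 5) + 1) := by
              rw [Real.rpow_add_one hN0.ne']
              ring
          _ ≤ (N : ℝ) ^ (1 - c) := by
              apply Real.rpow_le_rpow_of_exponent_le hN1
              linarith
          _ ≤ V := by
              rw [hV]
              have : 0 < (N : ℝ) ^ (1 - c) := by positivity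
              linarith
    · intro ξ hξ
      apply hBt
      rintro rfl
      rw [abs_zero] at hξ
      linarith
  have hfin := core_l2 B hBm hBb N hN1' δ hδ0 hδ1 M hM0 hmain w0
  have hD : ∀ w ∈ Set.Icc w0 (w0 + 1), DD b k N w = Gn one B 1 N w - JJ B N w := by
    intro w hw
    have h1 : Real.exp (k * w) * (N : ℝ) ^ k ≤ (N : ℝ) ^ (k + 1) := by
      rw [Real.rpow_add_one hN0.ne', mul_comm]
      apply mul_le_mul_of_nonneg_left _ (by positivity)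
      refine le_trans (Real.exp_le_exp.2 ?_) hNe
      exact mul_le_mul_of_nonneg_left hw.2 hk.le
    rw [← DD_sub b k N w (b 0) (Λ := Λ) hk (fun m hm => hb m ?_)]
    · rw [hB, ← hb']
      exact DD_eq b' hb'0 hk (by
        rw [hX2]
        exact Nat.floor_le_floor h1)
    · have h2 : ((⌊Real.exp (k * w) * (N : ℝ) ^ k⌋₊ : ℕ) : ℝ) ≤ Real.exp (k * w) * (N : ℝ) ^ k :=
        Nat.floor_le (by positivity)
      have h3 : (m : ℝ) ≤ ((⌊Real.exp (k * w) * (N : ℝ) ^ k⌋₊ : ℕ) : ℝ) := by exact_mod_cast hm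
      linarith
  have hcg : ∫⁻ w in Set.Icc w0 (w0 + 1), ‖DD b k N w‖ₑ ^ 2 =
      ∫⁻ w in Set.Icc w0 (w0 + 1), ‖Gn one B 1 N w - JJ B N w‖ₑ ^ 2 := by
    refine setLIntegral_congr_fun measurableSet_Icc fun w hw => ?_
    simp only [hD w hw]
  rw [hcg]
  refine hfin.trans (ENNReal.ofReal_le_ofReal ?_)
  -- numeric part
  rw [← hL, hM]
  have hlX : Real.log ((X2 : ℝ) + 1) ≤ (k + 2) * L := by
    have h1 : (X2 : ℝ) + 1 ≤ (N : ℝ) ^ (k + 2) := by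
      have h2 : (N : ℝ) ^ (k + 2) = (N : ℝ) ^ (k + 1) * N := by
        rw [← Real.rpow_add_one hN0.ne']
        congr 1
        ring
      have h3 : 1 ≤ (N : ℝ) ^ (k + 1) := Real.one_le_rpow hN1 (by linarith)
      rw [h2]
      nlinarith
    have h4 := Real.log_le_log (by positivity) h1
    rwa [Real.log_rpow hN0, ← hL] at h4
  obtain ⟨P, hP⟩ : ∃ P, P = (N : ℝ) ^ (2 - c) := ⟨_, rfl⟩
  obtain ⟨κ, hκ⟩ : ∃ κ, κ = (k + 2) / k := ⟨_, rfl⟩
  have hκ0 : 0 ≤ κ := by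
    rw [hκ]
    positivity
  have hP0 : 0 < P := by
    rw [hP]
    positivity
  rw [← hκ] at hA
  have hLL : L ≤ L ^ 2 := by nlinarith
  have t1 : V ^ 2 * (Λ1 ^ 2 * (Real.log (X2 + 1) / k)) ≤ Λ ^ 2 * (P / 6) := by
    have h1 : Real.log ((X2 : ℝ) + 1) / k ≤ κ * L := by
      rw [hκ, div_mul_eq_mul_div]
      exact div_le_div_of_nonneg_right hlX hk.le
    have h2 : V ^ 2 = 4 * (N : ℝ) ^ (2 - 2 * c) := by
      rw [hV, mul_pow, ← Real.rpow_natCast, ← Real.rpow_natCast, ← Real.rpow_mul hN0.le]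
      congr 1
      · norm_num
      · congr 1
        push_cast
        ring
    have h3 : (N : ℝ) ^ (2 - 2 * c) * (N : ℝ) ^ c = P := by
      rw [hP, ← Real.rpow_add hN0]
      congr 1
      ring
    have h4 : 96 * (κ * L) ≤ (N : ℝ) ^ c := by
      refine le_trans ?_ hA
      nlinarith [mul_nonneg hκ0 (sub_nonneg.2 hLL), sq_nonneg L]
    have h5 : 0 ≤ (N : ℝ) ^ (2 - 2 * c) := by positivity
    calc V ^ 2 * (Λ1 ^ 2 * (Real.log (X2 + 1) / k)) ≤ V ^ 2 * (Λ1 ^ 2 * (κ * L)) := by gcongr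
      _ = Λ ^ 2 * ((N : ℝ) ^ (2 - 2 * c) * (96 * (κ * L)) / 6) := by
          rw [h2, hΛ1]
          ring
      _ ≤ Λ ^ 2 * ((N : ℝ) ^ (2 - 2 * c) * (N : ℝ) ^ c / 6) := by gcongr
      _ = Λ ^ 2 * (P / 6) := by rw [h3]
  have hPc : (N : ℝ) ^ c ≤ P := by
    rw [hP]
    exact Real.rpow_le_rpow_of_exponent_le hN1 (by linarith)
  have t2 : (N : ℝ) ^ 2 * (8 * (X2 * Λ1) ^ 2) / T ≤ Λ ^ 2 * (P / 6) := by
    have h1 : (X2 : ℝ) ^ 2 ≤ (N : ℝ) ^ (2 * k + 2) := by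
      calc (X2 : ℝ) ^ 2 ≤ ((N : ℝ) ^ (k + 1)) ^ 2 := pow_le_pow_left₀ (by positivity) hX2a 2
        _ = (N : ℝ) ^ (2 * k + 2) := by
            rw [← Real.rpow_natCast, ← Real.rpow_mul hN0.le]
            congr 1
            push_cast
            ring
    have h2 : T = (N : ℝ) ^ (2 * k + 2) * (N : ℝ) ^ 2 := by
      rw [hT, ← Real.rpow_natCast (N : ℝ) 2, ← Real.rpow_add hN0]
      congr 1
      push_cast
      ring
    have hT0 : 0 < T := by linarith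
    rw [div_le_iff₀ hT0]
    have h3 : 192 ≤ P := by
      refine le_trans ?_ hPc
      refine le_trans ?_ hA
      nlinarith
    calc (N : ℝ) ^ 2 * (8 * (X2 * Λ1) ^ 2) = (N : ℝ) ^ 2 * (32 * Λ ^ 2 * (X2 : ℝ) ^ 2) := by
          rw [hΛ1]
          ring
      _ ≤ (N : ℝ) ^ 2 * (32 * Λ ^ 2 * (N : ℝ) ^ (2 * k + 2)) := by gcongr
      _ = Λ ^ 2 * (192 / 6) * ((N : ℝ) ^ (2 * k + 2) * (N : ℝ) ^ 2) := by ring
      _ ≤ Λ ^ 2 * (P / 6) * T := by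
          rw [h2]
          gcongr
  have t3 : (2 * Λ1 * (L + δ) / δ + 6 * δ * N * Λ1) ^ 2 ≤ Λ ^ 2 * (P / 6) := by
    obtain ⟨q, hq⟩ : ∃ q, q = (N : ℝ) ^ (3 / 5 : ℝ) := ⟨_, rfl⟩
    have hq0 : 0 < q := by
      rw [hq]
      positivity
    have hδq : δ * q = 1 := by
      rw [hδ, hq, ← Real.rpow_add hN0]
      norm_num
    have h1 : (L + δ) / δ ≤ 2 * L * q := by
      rw [div_le_iff₀ hδ0]
      have : 2 * L * q * δ = 2 * L := by
        linear_combination (2 * L) * hδq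
      rw [this]
      linarith
    have h2 : δ * N ≤ L * q := by
      have h3 : δ * N = (N : ℝ) ^ (-(3 / 5) + 1 : ℝ) := by
        rw [hδ, Real.rpow_add_one hN0.ne']
      have h4 : δ * N ≤ q := by
        rw [h3, hq]
        apply Real.rpow_le_rpow_of_exponent_le hN1
        norm_num
      nlinarith
    have h3 : 2 * Λ1 * (L + δ) / δ + 6 * δ * N * Λ1 ≤ 20 * Λ * (L * q) := by
      calc 2 * Λ1 * (L + δ) / δ + 6 * δ * N * Λ1 = 4 * Λ * ((L + δ) / δ) + 12 * Λ * (δ * N) := by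
            rw [hΛ1]
            ring
        _ ≤ 4 * Λ * (2 * L * q) + 12 * Λ * (L * q) := by gcongr
        _ = 20 * Λ * (L * q) := by ring
    have h4 : 0 ≤ 2 * Λ1 * (L + δ) / δ + 6 * δ * N * Λ1 := by positivity
    have h5 : q ^ 2 * (N : ℝ) ^ c ≤ P := by
      rw [hq, hP, ← Real.rpow_natCast, ← Real.rpow_mul hN0.le, ← Real.rpow_add hN0]
      apply Real.rpow_le_rpow_of_exponent_le hN1
      push_cast
      linarith
    have h6 : 2400 * L ^ 2 ≤ (N : ℝ) ^ c := by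
      refine le_trans ?_ hA
      nlinarith [mul_nonneg hκ0 (sq_nonneg L), sq_nonneg L]
    calc _ ≤ (20 * Λ * (L * q)) ^ 2 := pow_le_pow_left₀ h4 h3 2
      _ = Λ ^ 2 * (q ^ 2 * (2400 * L ^ 2) / 6) := by ring
      _ ≤ Λ ^ 2 * (q ^ 2 * (N : ℝ) ^ c / 6) := by gcongr
      _ ≤ Λ ^ 2 * (P / 6) := by gcongr
  rw [← hP]
  nlinarith

end Pool.Agent.D0H91.US
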