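import Mathlib
import Pool.Agent.D0H91.US.L5
import Pool.Agent.D0H91.MG.Base

/-! From the mean square to almost every dilation. -/

set_option autoImplicit false

namespace Pool.Agent.D0H91.US

open Finset MeasureTheory Filter Topology
open scoped ENNReal
open Pool.Agent.D0H91.MG

theorem det_pow (F : ℕ → ℕ → ℂ) (J : ℕ → ℕ) (hJ : Monotone J) (c : ℝ) (hc0 : 0 < c) (hc : c ≤ 1 / 16)
    (hsum : Summable fun N : ℕ => ∑ j ∈ range (J N + 1), (N : ℝ) ^ (-3 + 8 * c) * ‖F j N‖ ^ 2)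
    (hlip : ∀ᶠ N : ℕ in atTop, ∀ j : ℕ, j ≤ J N → ∀ i : ℕ, i ≤ N → ‖F j (N + i) - F j N‖ ≤ 4 * i * (N : ℝ) ^ c) :
    ∀ᶠ N : ℕ in atTop, ∀ j : ℕ, j ≤ J N → ‖F j N‖ ≤ (N : ℝ) ^ (1 - c) := by
  obtain ⟨G, hG⟩ : ∃ G : ℕ → ℝ, G = fun N : ℕ => ∑ j ∈ range (J N + 1), (N : ℝ) ^ (-3 + 8 * c) * ‖F j N‖ ^ 2 := ⟨_, rfl⟩
  rw [← hG] at hsum
  have hG0 : ∀ N, 0 ≤ G N := by
    intro N
    rw [hG]
    positivity
  have e1 : ∀ᶠ N : ℕ in atTop, ∑' M : ℕ, G (M + N) < 1 :=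
    (tendsto_sum_nat_add G).eventually_lt_const one_pos
  filter_upwards [e1, hlip, Pool.Agent.W301.SS.ev_log 0 512 (4 * c) (by positivity), eventually_ge_atTop 1] with
    N h1 h2 h3 h4 j hj
  by_contra hcon
  push Not at hcon
  have hN1 : (1 : ℝ) ≤ N := by exact_mod_cast h4
  have hN0 : (0 : ℝ) < N := by linarith
  rw [pow_zero, mul_one] at h3
  obtain ⟨H, hH⟩ : ∃ H : ℕ, H = ⌊(N : ℝ) ^ (1 - 2 * c) / 16⌋₊ := ⟨_, rfl⟩
  have hH1 : (H : ℝ) ≤ (N : ℝ) ^ (1 - 2 * c) / 16 := by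
    rw [hH]
    exact Nat.floor_le (by positivity)
  have hH2 : (N : ℝ) ^ (1 - 2 * c) / 16 ≤ H + 1 := by
    rw [hH]
    exact (Nat.lt_floor_add_one _).le
  have hHN : H ≤ N := by
    have h5 : (N : ℝ) ^ (1 - 2 * c) ≤ (N : ℝ) ^ (1 : ℝ) := Real.rpow_le_rpow_of_exponent_le hN1 (by linarith)
    rw [Real.rpow_one] at h5
    have h6 : (H : ℝ) ≤ N := by linarith
    exact_mod_cast h6
  have hP0 : 0 < (N : ℝ) ^ (1 - c) := by positivity
  have hbig : ∀ i : ℕ, i ≤ H → (N : ℝ) ^ (1 - c) / 2 ≤ ‖F j (N + i)‖ := by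
    intro i hi
    have a1 := h2 j hj i (by omega)
    have hi' : (i : ℝ) ≤ (N : ℝ) ^ (1 - 2 * c) / 16 := le_trans (by exact_mod_cast hi) hH1
    have a2 : 4 * (i : ℝ) * (N : ℝ) ^ c ≤ (N : ℝ) ^ (1 - c) / 4 := by
      have e : (N : ℝ) ^ (1 - 2 * c) * (N : ℝ) ^ c = (N : ℝ) ^ (1 - c) := by
        rw [← Real.rpow_add hN0]
        congr 1
        ring
      calc 4 * (i : ℝ) * (N : ℝ) ^ c ≤ 4 * ((N : ℝ) ^ (1 - 2 * c) / 16) * (N : ℝ) ^ c := by gcongr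
        _ = (N : ℝ) ^ (1 - c) / 4 := by
            rw [← e]
            ring
    have a3 : ‖F j N‖ ≤ ‖F j (N + i)‖ + ‖F j (N + i) - F j N‖ := by
      have := norm_sub_le (F j (N + i)) (F j (N + i) - F j N)
      rwa [sub_sub_cancel] at this
    linarith
  have hterm : ∀ i ∈ Finset.range (H + 1), (N : ℝ) ^ (-3 + 8 * c) / 8 * ((N : ℝ) ^ (1 - c) / 2) ^ 2 ≤ G (i + N) := by
    intro i hi
    rw [Finset.mem_range] at hi
    rw [hG]
    simp only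
    have hjm : j ∈ range (J (i + N) + 1) := by
      rw [Finset.mem_range]
      have := hJ (show N ≤ i + N by omega)
      omega
    refine le_trans ?_ (Finset.single_le_sum (f := fun j => ((i + N : ℕ) : ℝ) ^ (-3 + 8 * c) * ‖F j (i + N)‖ ^ 2)
      (fun _ _ => by positivity) hjm)
    have b1 := hbig i (by omega)
    rw [add_comm N i] at b1
    have b3 : ((i + N : ℕ) : ℝ) ≤ 2 * N := by
      have : ((i + N : ℕ) : ℝ) ≤ ((2 * N : ℕ) : ℝ) := by exact_mod_cast (by omega : i + N ≤ 2 * N)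
      push_cast at this ⊢
      linarith
    have b5 : (0 : ℝ) < ((i + N : ℕ) : ℝ) := by exact_mod_cast (by omega : 0 < i + N)
    refine mul_le_mul ?_ (pow_le_pow_left₀ (by positivity) b1 2) (by positivity) (by positivity)
    calc (N : ℝ) ^ (-3 + 8 * c) / 8 = (2 : ℝ) ^ (-3 : ℝ) * (N : ℝ) ^ (-3 + 8 * c) := by
          rw [Real.rpow_neg (by norm_num)]
          norm_num
          ring
      _ ≤ (2 : ℝ) ^ (-3 + 8 * c) * (N : ℝ) ^ (-3 + 8 * c) := by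
          apply mul_le_mul_of_nonneg_right _ (by positivity)
          exact Real.rpow_le_rpow_of_exponent_le (by norm_num) (by linarith)
      _ = (2 * (N : ℝ)) ^ (-3 + 8 * c) := by
          rw [Real.mul_rpow (by norm_num) hN0.le]
      _ ≤ ((i + N : ℕ) : ℝ) ^ (-3 + 8 * c) := Real.rpow_le_rpow_of_nonpos b5 b3 (by linarith)
  have h5' : ∑ i ∈ Finset.range (H + 1), (N : ℝ) ^ (-3 + 8 * c) / 8 * ((N : ℝ) ^ (1 - c) / 2) ^ 2 ≤
      ∑' M : ℕ, G (M + N) := by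
    refine (Finset.sum_le_sum hterm).trans ?_
    exact ((summable_nat_add_iff N).2 hsum).sum_le_tsum (Finset.range (H + 1)) (fun M _ => hG0 _)
  rw [Finset.sum_const, Finset.card_range, nsmul_eq_mul] at h5'
  have h6 : 1 ≤ ((H + 1 : ℕ) : ℝ) * ((N : ℝ) ^ (-3 + 8 * c) / 8 * ((N : ℝ) ^ (1 - c) / 2) ^ 2) := by
    push_cast
    calc (1 : ℝ) ≤ (N : ℝ) ^ (4 * c) / 512 := by
          rw [le_div_iff₀ (by norm_num)]
          linarith
      _ = ((N : ℝ) ^ (1 - 2 * c) / 16) * ((N : ℝ) ^ (-3 + 8 * c) / 8 * ((N : ℝ) ^ (1 - c) / 2) ^ 2) := by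
          have e : (N : ℝ) ^ (4 * c) = (N : ℝ) ^ (1 - 2 * c) * (N : ℝ) ^ (-3 + 8 * c) * ((N : ℝ) ^ (1 - c)) ^ 2 := by
            rw [← Real.rpow_natCast ((N : ℝ) ^ (1 - c)), ← Real.rpow_mul hN0.le, ← Real.rpow_add hN0, ← Real.rpow_add hN0]
            congr 1
            push_cast
            ring
          rw [e]
          ring
      _ ≤ _ := mul_le_mul_of_nonneg_right hH2 (by positivity)
  linarith

theorem DD_meas (b : ℕ → ℂ) (k : ℝ) (N : ℕ) : Measurable (DD b k N) := by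
  unfold DD
  apply Measurable.sub
  · refine Finset.measurable_fun_sum _ fun n _ => ?_
    exact (measurable_from_nat (f := b)).comp (Nat.measurable_floor.comp (by fun_prop))
  · simp only [intervalIntegral.integral_of_le (Nat.cast_nonneg N : (0 : ℝ) ≤ N)]
    have h : Measurable (Function.uncurry fun w u : ℝ => b ⌊Real.exp (k * w) * u ^ k⌋₊) := by
      apply (measurable_from_nat (f := b)).comp
      apply Nat.measurable_floor.comp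
      apply Measurable.mul
      · exact Real.measurable_exp.comp (measurable_fst.const_mul k)
      · exact measurable_snd.pow_const k
    exact (h.stronglyMeasurable.integral_prod_right).measurable

theorem fl_ii (b : ℕ → ℂ) {k : ℝ} (hk : 0 < k) (w : ℝ) {a a' : ℝ} (ha : 0 ≤ a) (haa : a ≤ a') :
    IntervalIntegrable (fun u : ℝ => b ⌊Real.exp (k * w) * u ^ k⌋₊) volume a a' := by
  have hm : Measurable fun u : ℝ => b ⌊Real.exp (k * w) * u ^ k⌋₊ :=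
    (measurable_from_nat (f := b)).comp (Nat.measurable_floor.comp (by fun_prop))
  rw [intervalIntegrable_iff, Set.uIoc_of_le haa]
  refine Measure.integrableOn_of_bounded
    (M := ∑ m ∈ range (⌊Real.exp (k * w) * a' ^ k⌋₊ + 1), ‖b m‖) (by simp) hm.aestronglyMeasurable ?_
  refine (ae_restrict_iff' measurableSet_Ioc).2 (Filter.Eventually.of_forall fun u hu => ?_)
  refine Finset.single_le_sum (f := fun m => ‖b m‖) (fun _ _ => norm_nonneg _) ?_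
  rw [Finset.mem_range, Nat.lt_succ_iff]
  exact Nat.floor_le_floor (mul_le_mul_of_nonneg_left (Real.rpow_le_rpow (ha.trans hu.1.le) hu.2 hk.le) (Real.exp_pos _).le)

theorem DD_lip (b : ℕ → ℂ) {k : ℝ} (hk : 0 < k) (w : ℝ) (N i : ℕ) {Λ : ℝ}
    (hb : ∀ m : ℕ, (m : ℝ) ≤ Real.exp (k * w) * ((N + i : ℕ) : ℝ) ^ k → ‖b m‖ ≤ Λ) :
    ‖DD b k (N + i) w - DD b k N w‖ ≤ 2 * i * Λ := by
  have hf : ∀ u : ℝ, 0 ≤ u → u ≤ ((N + i : ℕ) : ℝ) → ‖b ⌊Real.exp (k * w) * u ^ k⌋₊‖ ≤ Λ := by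
    intro u hu0 hu1
    apply hb
    refine (Nat.floor_le (by positivity)).trans ?_
    exact mul_le_mul_of_nonneg_left (Real.rpow_le_rpow hu0 hu1 hk.le) (Real.exp_pos _).le
  unfold DD
  have e1 : ∑ n ∈ Icc 1 (N + i), b ⌊Real.exp (k * w) * (n : ℝ) ^ k⌋₊ =
      ∑ n ∈ Icc 1 N, b ⌊Real.exp (k * w) * (n : ℝ) ^ k⌋₊ + ∑ n ∈ Ioc N (N + i), b ⌊Real.exp (k * w) * (n : ℝ) ^ k⌋₊ := by
    rw [← Finset.sum_union]
    · congr 1
      ext n
      simp only [Finset.mem_union, Finset.mem_Icc, Finset.mem_Ioc]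
      omega
    · rw [Finset.disjoint_left]
      intro n h1 h2
      rw [Finset.mem_Icc] at h1
      rw [Finset.mem_Ioc] at h2
      omega
  have hN0 : (0 : ℝ) ≤ N := Nat.cast_nonneg N
  have hNi : (N : ℝ) ≤ ((N + i : ℕ) : ℝ) := by exact_mod_cast Nat.le_add_right N i
  have e2 := intervalIntegral.integral_add_adjacent_intervals (fl_ii b hk w le_rfl hN0) (fl_ii b hk w hN0 hNi)
  rw [e1, ← e2]
  have e3 : ∀ x y z t : ℂ, x + y - (z + t) - (x - z) = y - t := by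
    intro x y z t
    ring
  rw [e3]
  refine (norm_sub_le _ _).trans ?_
  have h1 : ‖∑ n ∈ Ioc N (N + i), b ⌊Real.exp (k * w) * (n : ℝ) ^ k⌋₊‖ ≤ i * Λ := by
    refine (norm_sum_le _ _).trans ?_
    calc _ ≤ ∑ n ∈ Ioc N (N + i), Λ := Finset.sum_le_sum fun n hn => by
          rw [Finset.mem_Ioc] at hn
          exact hf n (Nat.cast_nonneg n) (by exact_mod_cast hn.2)
      _ = i * Λ := by
          rw [Finset.sum_const, Nat.card_Ioc, Nat.add_sub_cancel_left, nsmul_eq_mul]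
  have h2 : ‖∫ u in (N : ℝ)..((N + i : ℕ) : ℝ), b ⌊Real.exp (k * w) * u ^ k⌋₊‖ ≤ Λ * i := by
    have h3 := intervalIntegral.norm_integral_le_of_norm_le_const (a := (N : ℝ)) (b := ((N + i : ℕ) : ℝ))
      (f := fun u : ℝ => b ⌊Real.exp (k * w) * u ^ k⌋₊) (C := Λ) (fun u hu => by
        rw [Set.uIoc_of_le hNi] at hu
        exact hf u (hN0.trans hu.1.le) hu.2)
    have h4 : ((N + i : ℕ) : ℝ) - N = i := by
      push_cast
      ring
    rwa [h4, abs_of_nonneg (Nat.cast_nonneg i)] at h3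
  linarith

theorem us_loc (k : ℝ) (hk : 0 < k) : ∃ c : ℝ, 0 < c ∧ c ≤ 1 / 160 ∧ ∀ (w0 c' : ℝ), 0 ≤ c' → c' ≤ c →
    ∀ b : ℕ → ℕ → ℂ, (∀ᶠ N : ℕ in atTop, ∀ j : ℕ, (j : ℝ) ≤ (N : ℝ) ^ c' → ∀ m : ℕ, (m : ℝ) ≤ (N : ℝ) ^ (k + 1) →
      ‖b j m‖ ≤ (N : ℝ) ^ c) →
    ∀ᵐ w ∂(volume.restrict (Set.Icc w0 (w0 + 1))), ∀ᶠ N : ℕ in atTop, ∀ j : ℕ, (j : ℝ) ≤ (N : ℝ) ^ c' →
      ‖DD (b j) k N w‖ ≤ (N : ℝ) ^ (1 - c) := by
  obtain ⟨c0, hc0, hc01, hus⟩ := us_l2 k hk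
  obtain ⟨c, hcd⟩ : ∃ c, c = c0 / 16 := ⟨_, rfl⟩
  have hcc : c0 = 16 * c := by linarith
  refine ⟨c, by linarith, by linarith, fun w0 c' hc'0 hc' b hb => ?_⟩
  have hcp : 0 < c := by linarith
  obtain ⟨J, hJ⟩ : ∃ J : ℕ → ℕ, J = fun N : ℕ => ⌊(N : ℝ) ^ c'⌋₊ := ⟨_, rfl⟩
  have hJm : Monotone J := by
    intro N M hNM
    rw [hJ]
    exact Nat.floor_le_floor (Real.rpow_le_rpow (Nat.cast_nonneg N) (by exact_mod_cast hNM) hc'0)
  have hJN : ∀ N j : ℕ, j ≤ J N ↔ (j : ℝ) ≤ (N : ℝ) ^ c' := by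
    intro N j
    rw [hJ]
    exact Nat.le_floor_iff (by positivity)
  set Ω : Set ℝ := Set.Icc w0 (w0 + 1) with hΩ
  obtain ⟨N1, hN1⟩ := ((hus w0).and (hb.and (eventually_ge_atTop 1))).exists_forall_of_atTop
  obtain ⟨G, hG⟩ : ∃ G : ℕ → ℝ → ℝ≥0∞, G = fun N w => ∑ j ∈ range (J (N + N1) + 1),
    ENNReal.ofReal (((N + N1 : ℕ) : ℝ) ^ (-3 + 8 * c)) * ‖DD (b j) k (N + N1) w‖ₑ ^ 2 := ⟨_, rfl⟩
  have hGm : ∀ N, Measurable (G N) := by
    intro N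
    rw [hG]
    refine Finset.measurable_fun_sum _ fun y _ => ?_
    exact Measurable.const_mul ((DD_meas (b y) k (N + N1)).enorm.pow_const 2) _
  have hGi : ∀ N, ∫⁻ w in Ω, G N w ≤ ENNReal.ofReal (2 * ((N + N1 : ℕ) : ℝ) ^ (-1 - 5 * c)) := by
    intro N
    obtain ⟨a1, a2, a3⟩ := hN1 (N + N1) (by omega)
    obtain ⟨M, hM⟩ : ∃ M, M = N + N1 := ⟨_, rfl⟩
    rw [hG]
    simp only [← hM] at a1 a2 a3 ⊢
    have hM1 : (1 : ℝ) ≤ M := by exact_mod_cast a3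
    have hM0 : (0 : ℝ) < M := by linarith
    rw [lintegral_finsetSum _ fun y _ => Measurable.const_mul ((DD_meas (b y) k M).enorm.pow_const 2) _]
    have e1 : ∀ j ∈ range (J M + 1), ∫⁻ w in Ω, ENNReal.ofReal ((M : ℝ) ^ (-3 + 8 * c)) *
        ‖DD (b j) k M w‖ₑ ^ 2 ≤ ENNReal.ofReal ((M : ℝ) ^ (-1 - 6 * c)) := by
      intro j hj
      rw [Finset.mem_range, Nat.lt_succ_iff, hJN] at hj
      rw [lintegral_const_mul _ ((DD_meas (b j) k M).enorm.pow_const 2)]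
      have a4 := a1 (b j) ((M : ℝ) ^ c) (by positivity) (a2 j hj)
      refine (mul_le_mul_right a4 _).trans ?_
      rw [← ENNReal.ofReal_mul (by positivity)]
      refine ENNReal.ofReal_le_ofReal (le_of_eq ?_)
      rw [← Real.rpow_natCast ((M : ℝ) ^ c), ← Real.rpow_mul hM0.le, ← Real.rpow_add hM0, ← Real.rpow_add hM0]
      congr 1
      rw [hcc]
      push_cast
      ring
    refine (Finset.sum_le_sum e1).trans ?_
    rw [Finset.sum_const, Finset.card_range, nsmul_eq_mul, ← ENNReal.ofReal_natCast, ← ENNReal.ofReal_mul (by positivity)]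
    apply ENNReal.ofReal_le_ofReal
    have h1 : ((J M + 1 : ℕ) : ℝ) ≤ 2 * (M : ℝ) ^ c := by
      push_cast
      have h2 : ((J M : ℕ) : ℝ) ≤ (M : ℝ) ^ c' := (hJN M (J M)).1 le_rfl
      have h3 : (M : ℝ) ^ c' ≤ (M : ℝ) ^ c := Real.rpow_le_rpow_of_exponent_le hM1 hc'
      have h4 : 1 ≤ (M : ℝ) ^ c := Real.one_le_rpow hM1 hcp.le
      linarith
    calc ((J M + 1 : ℕ) : ℝ) * (M : ℝ) ^ (-1 - 6 * c) ≤ (2 * (M : ℝ) ^ c) * (M : ℝ) ^ (-1 - 6 * c) :=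
          mul_le_mul_of_nonneg_right h1 (by positivity)
      _ = 2 * (M : ℝ) ^ (-1 - 5 * c) := by
          rw [mul_assoc, ← Real.rpow_add hM0]
          congr 2
          ring
  have hsum0 : Summable (fun N : ℕ => 2 * ((N + N1 : ℕ) : ℝ) ^ (-1 - 5 * c)) := by
    have h1 : Summable (fun N : ℕ => (N : ℝ) ^ (-1 - 5 * c)) := Real.summable_nat_rpow.2 (by linarith)
    exact ((summable_nat_add_iff (f := fun N : ℕ => (N : ℝ) ^ (-1 - 5 * c)) N1).2 h1).mul_left 2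
  have hfin : ∫⁻ w in Ω, ∑' N, G N w ≠ ⊤ := by
    rw [lintegral_tsum fun N => (hGm N).aemeasurable]
    refine ne_of_lt (lt_of_le_of_lt (ENNReal.tsum_le_tsum hGi) ?_)
    exact hsum0.tsum_ofReal_lt_top
  have hae := ae_lt_top (Measurable.tsum hGm) hfin
  filter_upwards [hae, ae_restrict_mem measurableSet_Icc] with w hw hwΩ
  have hS : Summable fun N : ℕ => ∑ j ∈ range (J N + 1), (N : ℝ) ^ (-3 + 8 * c) * ‖DD (b j) k N w‖ ^ 2 := by
    rw [← summable_nat_add_iff N1]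
    refine (ENNReal.summable_toReal hw.ne).congr fun N => ?_
    rw [hG]
    simp only
    rw [ENNReal.toReal_sum fun y _ => by finiteness]
    refine Finset.sum_congr rfl fun y _ => ?_
    rw [ENNReal.toReal_mul, ENNReal.toReal_pow, toReal_enorm, ENNReal.toReal_ofReal (by positivity)]
  have hlip : ∀ᶠ N : ℕ in atTop, ∀ j : ℕ, j ≤ J N → ∀ i : ℕ, i ≤ N →
      ‖DD (b j) k (N + i) w - DD (b j) k N w‖ ≤ 4 * i * (N : ℝ) ^ c := by
    filter_upwards [eventually_ge_atTop (N1 + ⌈Real.exp (k * (w0 + 1))⌉₊ + 1)] with N hN j hj i hi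
    have hN1' : (1 : ℝ) ≤ N := by exact_mod_cast (by omega : 1 ≤ N)
    have hN0 : (0 : ℝ) < N := by linarith
    have hMN : (N : ℝ) ≤ ((N + i : ℕ) : ℝ) := by exact_mod_cast Nat.le_add_right N i
    have hM2 : ((N + i : ℕ) : ℝ) ≤ 2 * N := by
      have : ((N + i : ℕ) : ℝ) ≤ ((2 * N : ℕ) : ℝ) := by exact_mod_cast (by omega : N + i ≤ 2 * N)
      push_cast at this ⊢
      linarith
    have hM0 : (0 : ℝ) < ((N + i : ℕ) : ℝ) := by linarith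
    obtain ⟨_, a2, _⟩ := hN1 (N + i) (by omega)
    have hNe : Real.exp (k * w) ≤ ((N + i : ℕ) : ℝ) := by
      have a1 := Nat.le_ceil (Real.exp (k * (w0 + 1)))
      have a2 : ((⌈Real.exp (k * (w0 + 1))⌉₊ : ℕ) : ℝ) ≤ N := by
        exact_mod_cast (by omega : ⌈Real.exp (k * (w0 + 1))⌉₊ ≤ N)
      have a3 : Real.exp (k * w) ≤ Real.exp (k * (w0 + 1)) := Real.exp_le_exp.2 (mul_le_mul_of_nonneg_left hwΩ.2 hk.le)
      linarith
    have hj' : (j : ℝ) ≤ ((N + i : ℕ) : ℝ) ^ c' :=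
      ((hJN N j).1 hj).trans (Real.rpow_le_rpow hN0.le hMN hc'0)
    have h1 := DD_lip (b j) hk w N i (Λ := ((N + i : ℕ) : ℝ) ^ c) (fun m hm => by
      apply a2 j hj' m
      refine hm.trans ?_
      rw [Real.rpow_add_one hM0.ne', mul_comm]
      exact mul_le_mul_of_nonneg_left hNe (by positivity))
    refine h1.trans ?_
    have h2 : ((N + i : ℕ) : ℝ) ^ c ≤ 2 * (N : ℝ) ^ c := by
      calc ((N + i : ℕ) : ℝ) ^ c ≤ (2 * (N : ℝ)) ^ c := Real.rpow_le_rpow hM0.le hM2 hcp.le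
        _ = 2 ^ c * (N : ℝ) ^ c := Real.mul_rpow (by norm_num) hN0.le
        _ ≤ 2 ^ (1 : ℝ) * (N : ℝ) ^ c := by
            apply mul_le_mul_of_nonneg_right _ (by positivity)
            exact Real.rpow_le_rpow_of_exponent_le (by norm_num) (by linarith)
        _ = 2 * (N : ℝ) ^ c := by rw [Real.rpow_one]
    calc 2 * (i : ℝ) * ((N + i : ℕ) : ℝ) ^ c ≤ 2 * i * (2 * (N : ℝ) ^ c) := by gcongr
      _ = _ := by ring
  have hdet := det_pow (fun j N => DD (b j) k N w) J hJm c hcp (by linarith) hS hlip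
  filter_upwards [hdet] with N hN j hj
  exact hN j ((hJN N j).2 hj)

/-- **Universal sampling theorem.** -/
theorem us_ae (k : ℝ) (hk : 0 < k) : ∃ c : ℝ, 0 < c ∧ c ≤ 1 / 160 ∧ ∀ (c' : ℝ), 0 ≤ c' → c' ≤ c →
    ∀ b : ℕ → ℕ → ℂ, (∀ᶠ N : ℕ in atTop, ∀ j : ℕ, (j : ℝ) ≤ (N : ℝ) ^ c' → ∀ m : ℕ, (m : ℝ) ≤ (N : ℝ) ^ (k + 1) →
      ‖b j m‖ ≤ (N : ℝ) ^ c) →
    ∀ᵐ α : ℝ, 0 < α → ∀ᶠ N : ℕ in atTop, ∀ j : ℕ, (j : ℝ) ≤ (N : ℝ) ^ c' →
      ‖∑ n ∈ Icc 1 N, b j ⌊α * (n : ℝ) ^ k⌋₊ - ∫ u in (0 : ℝ)..N, b j ⌊α * u ^ k⌋₊‖ ≤ (N : ℝ) ^ (1 - c) := by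
  obtain ⟨c, hc0, hc1, h⟩ := us_loc k hk
  refine ⟨c, hc0, hc1, fun c' hc'0 hc' b hb => ?_⟩
  apply ae_of_exp (P := fun α => ∀ᶠ N : ℕ in atTop, ∀ j : ℕ, (j : ℝ) ≤ (N : ℝ) ^ c' →
      ‖∑ n ∈ Icc 1 N, b j ⌊α * (n : ℝ) ^ k⌋₊ - ∫ u in (0 : ℝ)..N, b j ⌊α * u ^ k⌋₊‖ ≤ (N : ℝ) ^ (1 - c)) hk
  have h1 : ∀ᵐ w : ℝ, ∀ z : ℤ, w ∈ Set.Icc (z : ℝ) (z + 1) → ∀ᶠ N : ℕ in atTop, ∀ j : ℕ, (j : ℝ) ≤ (N : ℝ) ^ c' →
      ‖DD (b j) k N w‖ ≤ (N : ℝ) ^ (1 - c) := by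
    rw [ae_all_iff]
    intro z
    exact (ae_restrict_iff' measurableSet_Icc).1 (h z c' hc'0 hc' b hb)
  filter_upwards [h1] with w hw
  exact hw ⌊w⌋ ⟨Int.floor_le w, (Int.lt_floor_add_one w).le⟩

end Pool.Agent.D0H91.US
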