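import Mathlib
import Pool.Agent.D0H91.US.L6

/-! Tools for applications of the universal sampling theorem. -/

set_option autoImplicit false

namespace Pool.Agent.D0H91.US

open Finset MeasureTheory Filter Topology
open scoped ENNReal
open Pool.Agent.D0H91.MG

/-- one bounded function -/
theorem us_bdd (k : ℝ) (hk : 0 < k) : ∃ c : ℝ, 0 < c ∧ c ≤ 1 / 160 ∧
    ∀ (b : ℕ → ℂ) (M : ℝ), (∀ m, ‖b m‖ ≤ M) →
    ∀ᵐ α : ℝ, 0 < α → ∀ᶠ N : ℕ in atTop,
      ‖∑ n ∈ Icc 1 N, b ⌊α * (n : ℝ) ^ k⌋₊ - ∫ u in (0 : ℝ)..N, b ⌊α * u ^ k⌋₊‖ ≤ (N : ℝ) ^ (1 - c) := by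
  obtain ⟨c, hc0, hc1, h⟩ := us_ae k hk
  refine ⟨c, hc0, hc1, fun b M hM => ?_⟩
  have h1 := h 0 le_rfl hc0.le (fun _ => b) (by
    filter_upwards [Pool.Agent.W301.SS.ev_log 0 M c hc0] with N hN j _ m _
    rw [pow_zero, mul_one] at hN
    exact (hM m).trans hN)
  filter_upwards [h1] with α hα hα0
  filter_upwards [hα hα0, eventually_ge_atTop 1] with N hN hN1
  refine hN 0 ?_
  rw [Nat.cast_zero]
  positivity

theorem ae_inv {P : ℝ → Prop} (h : ∀ᵐ α : ℝ, 0 < α → P α) : ∀ᵐ d : ℝ, 0 < d → P (1 / d) := by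
  rw [ae_iff] at h ⊢
  have h1 : volume ((fun α : ℝ => 1 / α) '' {α | ¬(0 < α → P α)}) = 0 := by
    apply addHaar_image_eq_zero_of_differentiableOn_of_addHaar_eq_zero volume _ h
    intro α hα
    have hα0 : 0 < α := by
      by_contra hcon
      exact hα fun h => absurd h hcon
    apply DifferentiableAt.differentiableWithinAt
    have : α ≠ 0 := hα0.ne'
    fun_prop (disch := assumption)
  refine measure_mono_null (fun d hd => ?_) h1
  have hd0 : 0 < d := by
    by_contra hcon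
    exact hd fun h => absurd h hcon
  refine ⟨1 / d, ?_, by simp⟩
  intro hcon
  exact hd fun _ => hcon (by positivity)

theorem int_lower {k α M : ℝ} (hk : 1 ≤ k) (hα : 0 < α) (N : ℕ) (hN : 1 ≤ N) (g : ℝ → ℝ) (hgm : Measurable g)
    (hg0 : ∀ x, 0 ≤ g x) (hgM : ∀ x, 0 < x → x ≤ α * (N : ℝ) ^ k → g x ≤ M) :
    ((N : ℝ) / (k * (α * (N : ℝ) ^ k))) * ∫ x in (0 : ℝ)..(α * (N : ℝ) ^ k), g x ≤
      ∫ u in (0 : ℝ)..N, g (α * u ^ k) := by
  have hk0 : 0 < k := by linarith
  have hN1 : (1 : ℝ) ≤ N := by exact_mod_cast hN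
  have hN0 : (0 : ℝ) < N := by linarith
  have hX0 : 0 < α * (N : ℝ) ^ k := by positivity
  have hM0 : 0 ≤ M := (hg0 _).trans (hgM _ hX0 le_rfl)
  rw [intervalIntegral.integral_of_le hX0.le, intervalIntegral.integral_of_le hN0.le]
  have himg : (fun u : ℝ => α * u ^ k) '' Set.Ioc (0 : ℝ) N = Set.Ioc 0 (α * (N : ℝ) ^ k) := by
    ext x
    constructor
    · rintro ⟨u, hu, rfl⟩
      refine ⟨?_, ?_⟩
      · have := hu.1
        positivity
      · exact mul_le_mul_of_nonneg_left (Real.rpow_le_rpow hu.1.le hu.2 hk0.le) hα.le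
    · intro hx
      have hx0 := hx.1
      refine ⟨(x / α) ^ (1 / k), ⟨by positivity, ?_⟩, ?_⟩
      · have h1 : x / α ≤ (N : ℝ) ^ k := by
          rw [div_le_iff₀ hα]
          linarith [hx.2]
        calc (x / α) ^ (1 / k) ≤ ((N : ℝ) ^ k) ^ (1 / k) := Real.rpow_le_rpow (by positivity) h1 (by positivity)
          _ = N := by
              rw [← Real.rpow_mul hN0.le]
              field_simp
              rw [Real.rpow_one]
      · simp only
        rw [← Real.rpow_mul (by positivity)]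
        have : 1 / k * k = 1 := by field_simp
        rw [this, Real.rpow_one]
        field_simp
  have hinj : Set.InjOn (fun u : ℝ => α * u ^ k) (Set.Ioc (0 : ℝ) N) := by
    intro u hu v hv huv
    simp only at huv
    have h1 := mul_left_cancel₀ hα.ne' huv
    exact (Real.rpow_left_inj hu.1.le hv.1.le hk0.ne').1 h1
  have hder : ∀ u ∈ Set.Ioc (0 : ℝ) N, HasDerivWithinAt (fun u : ℝ => α * u ^ k) (α * (k * u ^ (k - 1))) (Set.Ioc (0 : ℝ) N) u := by
    intro u hu
    apply HasDerivAt.hasDerivWithinAt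
    exact (Real.hasDerivAt_rpow_const (Or.inl hu.1.ne')).const_mul α
  have hcv := integral_image_eq_integral_abs_deriv_smul measurableSet_Ioc hder hinj g
  rw [himg] at hcv
  rw [hcv]
  have hgi : IntegrableOn (fun u : ℝ => g (α * u ^ k)) (Set.Ioc (0 : ℝ) N) volume := by
    refine Measure.integrableOn_of_bounded (M := M) (by simp) (hgm.comp (by fun_prop)).aestronglyMeasurable ?_
    refine (ae_restrict_iff' measurableSet_Ioc).2 (Filter.Eventually.of_forall fun u hu => ?_)
    rw [Real.norm_eq_abs, abs_of_nonneg (hg0 _)]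
    apply hgM
    · have := hu.1
      positivity
    · exact mul_le_mul_of_nonneg_left (Real.rpow_le_rpow hu.1.le hu.2 hk0.le) hα.le
  have hpt : ∀ u ∈ Set.Ioc (0 : ℝ) N, |α * (k * u ^ (k - 1))| • g (α * u ^ k) ≤
      (k * (α * (N : ℝ) ^ k) / N) * g (α * u ^ k) := by
    intro u hu
    have hu0 := hu.1
    rw [smul_eq_mul, abs_of_pos (by positivity)]
    apply mul_le_mul_of_nonneg_right _ (hg0 _)
    have h1 : u ^ (k - 1) ≤ (N : ℝ) ^ (k - 1) := Real.rpow_le_rpow hu.1.le hu.2 (by linarith)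
    have h2 : (N : ℝ) ^ (k - 1) = (N : ℝ) ^ k / N := Real.rpow_sub_one hN0.ne' k
    rw [h2] at h1
    calc α * (k * u ^ (k - 1)) ≤ α * (k * ((N : ℝ) ^ k / N)) := by gcongr
      _ = _ := by ring
  have hle : ∫ u in Set.Ioc (0 : ℝ) N, |α * (k * u ^ (k - 1))| • g (α * u ^ k) ≤
      ∫ u in Set.Ioc (0 : ℝ) N, (k * (α * (N : ℝ) ^ k) / N) * g (α * u ^ k) := by
    refine setIntegral_mono_on ?_ (hgi.const_mul _) measurableSet_Ioc hpt
    refine Integrable.mono' (hgi.const_mul (k * (α * (N : ℝ) ^ k) / N)) ?_ ?_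
    · apply Measurable.aestronglyMeasurable
      simp only [smul_eq_mul]
      apply Measurable.mul
      · have e : (fun u : ℝ => |α * (k * u ^ (k - 1))|) = fun u => ‖α * (k * u ^ (k - 1))‖ := rfl
        rw [e]
        apply Measurable.norm
        fun_prop
      · exact hgm.comp (by fun_prop)
    · refine (ae_restrict_iff' measurableSet_Ioc).2 (Filter.Eventually.of_forall fun u hu => ?_)
      rw [Real.norm_eq_abs, abs_of_nonneg]
      · exact hpt u hu
      · rw [smul_eq_mul]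
        exact mul_nonneg (abs_nonneg _) (hg0 _)
  rw [integral_const_mul] at hle
  calc _ ≤ ((N : ℝ) / (k * (α * (N : ℝ) ^ k))) * (k * (α * (N : ℝ) ^ k) / N *
      ∫ u in Set.Ioc (0 : ℝ) N, g (α * u ^ k)) := mul_le_mul_of_nonneg_left hle (by positivity)
    _ = _ := by
        field_simp

open Classical in
theorem count_int (E : Set ℕ) (M : ℕ) :
    ∫ x in (0 : ℝ)..M, (if ⌊x⌋₊ ∈ E then (1 : ℝ) else 0) = (((range M).filter (· ∈ E)).card : ℝ) := by
  have hm : Measurable fun x : ℝ => if ⌊x⌋₊ ∈ E then (1 : ℝ) else 0 :=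
    (measurable_from_nat (f := fun m : ℕ => if m ∈ E then (1 : ℝ) else 0)).comp Nat.measurable_floor
  have hi : ∀ a b : ℝ, IntervalIntegrable (fun x : ℝ => if ⌊x⌋₊ ∈ E then (1 : ℝ) else 0) volume a b := by
    intro a b
    rw [intervalIntegrable_iff]
    refine Measure.integrableOn_of_bounded (M := 1) (by simp) hm.aestronglyMeasurable (Filter.Eventually.of_forall fun x => ?_)
    split_ifs <;> simp
  induction M with
  | zero => simp
  | succ M ih =>
    rw [← intervalIntegral.integral_add_adjacent_intervals (hi 0 M) (hi M ((M + 1 : ℕ) : ℝ)), ih, Finset.range_add_one,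
      Finset.filter_insert]
    have h1 : ∫ x in (M : ℝ)..((M + 1 : ℕ) : ℝ), (if ⌊x⌋₊ ∈ E then (1 : ℝ) else 0) = if M ∈ E then 1 else 0 := by
      have h2 : ∫ x in (M : ℝ)..((M + 1 : ℕ) : ℝ), (if ⌊x⌋₊ ∈ E then (1 : ℝ) else 0) =
          ∫ x in (M : ℝ)..((M + 1 : ℕ) : ℝ), (if M ∈ E then (1 : ℝ) else 0) := by
        apply intervalIntegral.integral_congr_ae
        have h3 : ∀ᵐ x : ℝ, x ≠ ((M + 1 : ℕ) : ℝ) := by
          rw [ae_iff]
          simp
        filter_upwards [h3] with x hx hx2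
        rw [Set.uIoc_of_le (by push_cast; linarith)] at hx2
        have h4 : ⌊x⌋₊ = M := by
          rw [Nat.floor_eq_iff (by have := hx2.1; have : (0 : ℝ) ≤ M := Nat.cast_nonneg M; linarith)]
          refine ⟨hx2.1.le, ?_⟩
          have h5 := lt_of_le_of_ne hx2.2 hx
          push_cast at h5
          exact h5
        rw [h4]
      rw [h2, intervalIntegral.integral_const]
      push_cast
      simp
    rw [h1]
    split_ifs with h
    · rw [Finset.card_insert_of_notMem (by simp)]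
      push_cast
      ring
    · simp

end Pool.Agent.D0H91.US
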