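import Mathlib
import Pool.Agent.D0H91.US.App
import Pool.Agent.H321R3.VP.Main

/-! Sampled statistics of the primes in short intervals. -/

set_option autoImplicit false

namespace Pool.Agent.D0H91.US

open Finset MeasureTheory Filter Topology
open scoped ENNReal
open Pool.Agent.D0H91.MG
open ArithmeticFunction (vonMangoldt)

/-- `ψ(x;H)` as a function of `m = ⌊2 x⌋` -/
noncomputable def PP (H m : ℕ) : ℝ := ∑ᶠ n ∈ {n : ℕ | 1 ≤ n ∧ m + 1 ≤ 2 * n + H ∧ 2 * n ≤ m + H}, vonMangoldt n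

theorem psi_PP {x : ℝ} (hx : 0 ≤ x) (H : ℕ) (hne : ∀ z : ℕ, 2 * x ≠ z) : H321VP.psi x H = PP H ⌊2 * x⌋₊ := by
  unfold H321VP.psi PP
  have hset : {n : ℕ | 1 ≤ n ∧ x - (H : ℝ) / 2 ≤ n ∧ (n : ℝ) ≤ x + (H : ℝ) / 2} =
      {n : ℕ | 1 ≤ n ∧ ⌊2 * x⌋₊ + 1 ≤ 2 * n + H ∧ 2 * n ≤ ⌊2 * x⌋₊ + H} := by
    ext n
    simp only [Set.mem_setOf_eq]
    have h2x : 0 ≤ 2 * x := by linarith
    refine and_congr Iff.rfl (and_congr ?_ ?_)
    · rw [Nat.succ_le_iff, Nat.floor_lt h2x]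
      push_cast
      constructor
      · intro h
        have h1 : 2 * x ≤ 2 * n + H := by linarith
        refine lt_of_le_of_ne h1 fun he => hne (2 * n + H) ?_
        push_cast
        exact he
      · intro h
        linarith
    · rcases le_or_gt (2 * n) H with h | h
      · have h1 : (2 * n : ℝ) ≤ H := by exact_mod_cast h
        constructor
        · intro _
          omega
        · intro _
          linarith
      · obtain ⟨r, hr⟩ := Nat.exists_eq_add_of_le h.le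
        rw [hr]
        have e : H + r ≤ ⌊2 * x⌋₊ + H ↔ r ≤ ⌊2 * x⌋₊ := by omega
        rw [e, Nat.le_floor_iff h2x]
        have hr' : (2 * n : ℝ) = H + r := by exact_mod_cast hr
        constructor <;> intro h3 <;> linarith
  rw [hset]

theorem PP_nonneg (H m : ℕ) : 0 ≤ PP H m := by
  unfold PP
  exact finsum_nonneg fun n => finsum_nonneg fun _ => ArithmeticFunction.vonMangoldt_nonneg

theorem PP_le (H m : ℕ) : PP H m ≤ (H + 1) * Real.log (m + H + 1) := by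
  unfold PP
  have hset : {n : ℕ | 1 ≤ n ∧ m + 1 ≤ 2 * n + H ∧ 2 * n ≤ m + H} =
      (((Icc ((m + 1 - H) / 2) ((m + H) / 2)).filter (fun n => 1 ≤ n ∧ m + 1 ≤ 2 * n + H ∧ 2 * n ≤ m + H) : Finset ℕ) : Set ℕ) := by
    ext n
    rw [Finset.coe_filter]
    simp only [Set.mem_setOf_eq, Finset.mem_Icc]
    omega
  rw [hset, finsum_mem_coe_finset]
  have hcard : ((Icc ((m + 1 - H) / 2) ((m + H) / 2)).filter (fun n => 1 ≤ n ∧ m + 1 ≤ 2 * n + H ∧ 2 * n ≤ m + H)).card ≤ H + 1 := by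
    refine (Finset.card_filter_le _ _).trans ?_
    rw [Nat.card_Icc]
    omega
  calc _ ≤ ∑ n ∈ (Icc ((m + 1 - H) / 2) ((m + H) / 2)).filter (fun n => 1 ≤ n ∧ m + 1 ≤ 2 * n + H ∧ 2 * n ≤ m + H),
        Real.log (m + H + 1) := by
        refine Finset.sum_le_sum fun n hn => ?_
        rw [Finset.mem_filter] at hn
        refine ArithmeticFunction.vonMangoldt_le_log.trans (Real.log_le_log (by exact_mod_cast hn.2.1) ?_)
        have h1 : (n : ℝ) ≤ ((m + H + 1 : ℕ) : ℝ) := by exact_mod_cast (by omega : n ≤ m + H + 1)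
        push_cast at h1
        exact h1
    _ = _ := by rw [Finset.sum_const, nsmul_eq_mul]
    _ ≤ (H + 1) * Real.log (m + H + 1) := by
        apply mul_le_mul_of_nonneg_right (by exact_mod_cast hcard)
        apply Real.log_nonneg
        have h1 : (0 : ℝ) ≤ m := Nat.cast_nonneg m
        have h2 : (0 : ℝ) ≤ H := Nat.cast_nonneg H
        linarith

/-- for almost every `α` no `2 α n ^ k` is an integer -/
theorem ae_nonint (k : ℝ) : ∀ᵐ α : ℝ, 0 < α → ∀ n : ℕ, 1 ≤ n → ∀ z : ℕ, 2 * (α * (n : ℝ) ^ k) ≠ z := by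
  have h : ∀ᵐ α : ℝ, ∀ p : ℕ × ℕ, α ≠ (p.2 : ℝ) / (2 * (p.1 : ℝ) ^ k) := by
    rw [ae_all_iff]
    intro p
    rw [ae_iff]
    simp
  filter_upwards [h] with α hα hα0 n hn z hz
  apply hα (n, z)
  have hn0 : (0 : ℝ) < n := by exact_mod_cast hn
  have : (0 : ℝ) < (n : ℝ) ^ k := by positivity
  simp only
  rw [eq_div_iff (by positivity)]
  linarith

/-- for fixed `α`, almost every `u` -/
theorem ae_nonint' (k : ℝ) (hk : 0 < k) (α : ℝ) (hα : 0 < α) : ∀ᵐ u : ℝ, 0 < u → ∀ z : ℕ, 2 * (α * u ^ k) ≠ z := by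
  have h : ∀ᵐ u : ℝ, ∀ z : ℕ, u ≠ ((z : ℝ) / (2 * α)) ^ (1 / k) := by
    rw [ae_all_iff]
    intro z
    rw [ae_iff]
    simp
  filter_upwards [h] with u hu hu0 z hz
  apply hu z
  have e : (z : ℝ) / (2 * α) = u ^ k := by
    rw [← hz]
    field_simp
  rw [e, ← Real.rpow_mul hu0.le]
  have : k * (1 / k) = 1 := by field_simp
  rw [this, Real.rpow_one]

/-- **Sampled statistics.** -/
theorem sampled (k : ℝ) (hk : 0 < k) (A : ℕ) : ∃ c : ℝ, 0 < c ∧ ∀ Φ : ℕ → ℝ → ℂ,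
    (∀ H y, ‖Φ H y‖ ≤ (1 + H + |y|) ^ A) → ∀ᵐ α : ℝ, 0 < α → ∀ᶠ N : ℕ in atTop, ∀ H : ℕ, (H : ℝ) ≤ (N : ℝ) ^ c →
      ‖∑ n ∈ Icc 1 N, Φ H (H321VP.psi (α * (n : ℝ) ^ k) H) - ∫ u in (0 : ℝ)..N, Φ H (H321VP.psi (α * u ^ k) H)‖ ≤
        (N : ℝ) ^ (1 - c) := by
  obtain ⟨c0, hc0, hc1, h⟩ := us_ae k hk
  obtain ⟨c, hc⟩ : ∃ c, c = c0 / (4 * (A + 1)) := ⟨_, rfl⟩
  have hA0 : (0 : ℝ) ≤ A := Nat.cast_nonneg A
  have hcp : 0 < c := by
    rw [hc]
    positivity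
  have hcA : c * (4 * (A + 1)) = c0 := by
    rw [hc]
    field_simp
  have hcc0 : c ≤ c0 := by nlinarith
  refine ⟨c, hcp, fun Φ hΦ => ?_⟩
  have h1 := h c hcp.le hcc0 (fun H m => Φ H (PP H m)) (by
    filter_upwards [Pool.Agent.W301.SS.ev_log 1 (8 * (k + 3)) c hcp, eventually_ge_atTop 3] with N h1 h2 H hH m hm
    have hN3 : (3 : ℝ) ≤ N := by exact_mod_cast h2
    have hN0 : (0 : ℝ) < N := by linarith
    have hN1 : (1 : ℝ) ≤ N := by linarith
    rw [pow_one] at h1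
    have hNc1 : 1 ≤ (N : ℝ) ^ c := Real.one_le_rpow hN1 hcp.le
    have hL0 : 1 ≤ Real.log N := by
      rw [Real.le_log_iff_exp_le hN0]
      have := Real.exp_one_lt_d9
      linarith
    have hlog : Real.log (m + H + 1) ≤ (k + 3) * Real.log N := by
      have a1 : (m : ℝ) + H + 1 ≤ (N : ℝ) ^ (k + 3) := by
        have a2 : (H : ℝ) ≤ (N : ℝ) ^ (k + 1) := hH.trans (Real.rpow_le_rpow_of_exponent_le hN1 (by nlinarith))
        have a3 : 1 ≤ (N : ℝ) ^ (k + 1) := Real.one_le_rpow hN1 (by linarith)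
        have a4 : (N : ℝ) ^ (k + 3) = (N : ℝ) ^ (k + 1) * (N : ℝ) ^ 2 := by
          rw [← Real.rpow_natCast (N : ℝ) 2, ← Real.rpow_add hN0]
          congr 1
          push_cast
          ring
        rw [a4]
        have a5 : (3 : ℝ) ≤ (N : ℝ) ^ 2 := by nlinarith
        calc (m : ℝ) + H + 1 ≤ (N : ℝ) ^ (k + 1) * 3 := by linarith
          _ ≤ _ := mul_le_mul_of_nonneg_left a5 (by positivity)
      have a5 := Real.log_le_log (by positivity) a1
      rwa [Real.log_rpow hN0] at a5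
    have hP : 1 + (H : ℝ) + |PP H m| ≤ (N : ℝ) ^ (4 * c) := by
      rw [abs_of_nonneg (PP_nonneg H m)]
      have a1 := PP_le H m
      have a2 : ((H : ℝ) + 1) * Real.log (m + H + 1) ≤ (2 * (N : ℝ) ^ c) * ((k + 3) * Real.log N) := by
        apply mul_le_mul _ hlog (Real.log_nonneg _) (by positivity)
        · linarith
        · have h1 : (0 : ℝ) ≤ m := Nat.cast_nonneg m
          have h2 : (0 : ℝ) ≤ H := Nat.cast_nonneg H
          linarith
      have a3 : (N : ℝ) ^ (4 * c) = (N : ℝ) ^ c * (N : ℝ) ^ c * ((N : ℝ) ^ c * (N : ℝ) ^ c) := by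
        rw [← Real.rpow_add hN0, ← Real.rpow_add hN0]
        congr 1
        ring
      rw [a3]
      have a4 : 1 ≤ (N : ℝ) ^ c * (N : ℝ) ^ c := by nlinarith
      have a5 : 1 + (H : ℝ) + PP H m ≤ (N : ℝ) ^ c * (N : ℝ) ^ c := by
        have b1 : (2 * (N : ℝ) ^ c) * ((k + 3) * Real.log N) ≤ (N : ℝ) ^ c * ((N : ℝ) ^ c / 4) := by
          calc (2 * (N : ℝ) ^ c) * ((k + 3) * Real.log N) = (N : ℝ) ^ c * (8 * (k + 3) * Real.log N / 4) := by ring
            _ ≤ _ := by gcongr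
        have b2 : 8 ≤ (N : ℝ) ^ c := by
          refine le_trans ?_ h1
          nlinarith
        nlinarith
      nlinarith
    calc ‖Φ H (PP H m)‖ ≤ (1 + (H : ℝ) + |PP H m|) ^ A := hΦ H _
      _ ≤ ((N : ℝ) ^ (4 * c)) ^ A := pow_le_pow_left₀ (by positivity) hP A
      _ = (N : ℝ) ^ (4 * c * A) := by
          rw [← Real.rpow_natCast, ← Real.rpow_mul hN0.le]
      _ ≤ (N : ℝ) ^ c0 := by
          apply Real.rpow_le_rpow_of_exponent_le hN1
          nlinarith)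
  -- pass from `2 α` to `α`
  have h2 : ∀ᵐ α : ℝ, 0 < α → ∀ᶠ N : ℕ in atTop, ∀ H : ℕ, (H : ℝ) ≤ (N : ℝ) ^ c →
      ‖∑ n ∈ Icc 1 N, Φ H (PP H ⌊2 * α * (n : ℝ) ^ k⌋₊) - ∫ u in (0 : ℝ)..N, Φ H (PP H ⌊2 * α * u ^ k⌋₊)‖ ≤
        (N : ℝ) ^ (1 - c0) := by
    rw [ae_iff] at h1 ⊢
    have e : {a : ℝ | ¬ (0 < a → ∀ᶠ N : ℕ in atTop, ∀ H : ℕ, (H : ℝ) ≤ (N : ℝ) ^ c →
      ‖∑ n ∈ Icc 1 N, Φ H (PP H ⌊2 * a * (n : ℝ) ^ k⌋₊) - ∫ u in (0 : ℝ)..N, Φ H (PP H ⌊2 * a * u ^ k⌋₊)‖ ≤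
        (N : ℝ) ^ (1 - c0))} ⊆ (fun x : ℝ => 2 * x) ⁻¹' {α : ℝ | ¬ (0 < α → ∀ᶠ N : ℕ in atTop, ∀ j : ℕ, (j : ℝ) ≤ (N : ℝ) ^ c →
      ‖∑ n ∈ Icc 1 N, (fun H m => Φ H (PP H m)) j ⌊α * (n : ℝ) ^ k⌋₊ -
        ∫ u in (0 : ℝ)..N, (fun H m => Φ H (PP H m)) j ⌊α * u ^ k⌋₊‖ ≤ (N : ℝ) ^ (1 - c0))} := by
      intro a ha hcon
      apply ha
      intro ha0
      exact hcon (by positivity)
    refine measure_mono_null e ?_
    rw [Real.volume_preimage_mul_left (by norm_num : (2 : ℝ) ≠ 0), h1, mul_zero]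
  filter_upwards [h2, ae_nonint k] with α hα hni hα0
  filter_upwards [hα hα0, eventually_ge_atTop 1] with N hN hN1 H hH
  have h3 := hN H hH
  have e1 : ∑ n ∈ Icc 1 N, Φ H (H321VP.psi (α * (n : ℝ) ^ k) H) = ∑ n ∈ Icc 1 N, Φ H (PP H ⌊2 * α * (n : ℝ) ^ k⌋₊) := by
    refine Finset.sum_congr rfl fun n hn => ?_
    rw [Finset.mem_Icc] at hn
    have hn0 : (0 : ℝ) < n := by exact_mod_cast hn.1
    rw [psi_PP (by positivity) H (hni hα0 n hn.1), mul_assoc]
  have e2 : ∫ u in (0 : ℝ)..N, Φ H (H321VP.psi (α * u ^ k) H) = ∫ u in (0 : ℝ)..N, Φ H (PP H ⌊2 * α * u ^ k⌋₊) := by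
    apply intervalIntegral.integral_congr_ae
    filter_upwards [ae_nonint' k hk α hα0] with u hu hu2
    rw [Set.uIoc_of_le (Nat.cast_nonneg N)] at hu2
    have hu0 := hu2.1
    rw [psi_PP (by positivity) H (hu hu0), mul_assoc]
  rw [e1, e2]
  refine h3.trans ?_
  apply Real.rpow_le_rpow_of_exponent_le (by exact_mod_cast hN1)
  linarith

end Pool.Agent.D0H91.US

namespace Pool.Agent.D0H91.US

open Finset MeasureTheory Filter Topology
open scoped ENNReal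
open Pool.Agent.D0H91.MG

/-- **Lower bound for the sampled variance.** -/
theorem var_low (k : ℝ) (hk : 1 ≤ k) : ∃ c : ℝ, 0 < c ∧ ∀ᵐ α : ℝ, 0 < α → ∀ ε : ℝ, 0 < ε → ∀ᶠ N : ℕ in atTop,
    ∀ H : ℕ, 1 ≤ H → (H : ℝ) ≤ (N : ℝ) ^ c →
      N * H * ((1 / 2 - ε) * Real.log N - 3 / (2 * k) * Real.log H) ≤
        ∑ n ∈ Icc 1 N, |H321VP.psi (α * (n : ℝ) ^ k) H - H| ^ 2 := by
  have hk0 : 0 < k := by linarith
  obtain ⟨c0, hc0, hs⟩ := sampled k hk0 2
  obtain ⟨c, hc⟩ : ∃ c, c = min c0 (1 / 4) := ⟨_, rfl⟩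
  have hcp : 0 < c := by
    rw [hc]
    positivity
  have hcc0 : c ≤ c0 := by
    rw [hc]
    exact min_le_left _ _
  have hc4 : c ≤ 1 / 4 := by
    rw [hc]
    exact min_le_right _ _
  refine ⟨c, hcp, ?_⟩
  filter_upwards [hs (fun H y => (((y - H) ^ 2 : ℝ) : ℂ)) (fun H y => by
    rw [Complex.norm_real, Real.norm_eq_abs, abs_of_nonneg (sq_nonneg _), ← sq_abs]
    have h1 : |y - (H : ℝ)| ≤ |y| + |(H : ℝ)| := abs_sub _ _
    have h2 : |(H : ℝ)| = H := abs_of_nonneg (Nat.cast_nonneg H)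
    exact pow_le_pow_left₀ (abs_nonneg _) (by linarith) 2)] with α hα hα0 ε hε
  obtain ⟨X₀, hX₀, hvl⟩ := H321VP.var_lower (min (ε / 4) 1) (by positivity) (min_le_right _ _)
  have hX : Tendsto (fun N : ℕ => α * (N : ℝ) ^ k) atTop atTop :=
    ((tendsto_rpow_atTop hk0).comp tendsto_natCast_atTop_atTop).const_mul_atTop hα0
  filter_upwards [hα hα0, hX.eventually_ge_atTop (max X₀ 1), ev_logge (8 * |Real.log α| / ε), ev_logge (4 * |Real.log α|),
    ev_logge 1, Pool.Agent.W301.SS.ev_log 0 (4 / ε) c0 hc0, eventually_ge_atTop 3]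
    with N h1 h2 h3 h3' h3'' h4 h6 H hH1 hHN
  obtain ⟨X, hXd⟩ : ∃ X, X = α * (N : ℝ) ^ k := ⟨_, rfl⟩
  rw [← hXd] at h2
  have h5 : 1 ≤ X := (le_max_right _ _).trans h2
  have h5' : X₀ ≤ X := (le_max_left _ _).trans h2
  have hN3 : (3 : ℝ) ≤ N := by exact_mod_cast h6
  have hN0 : (0 : ℝ) < N := by linarith
  have hN1 : (1 : ℝ) ≤ N := by linarith
  have hN1' : 1 ≤ N := by omega
  have hX0 : 0 < X := by linarith
  have hH1' : (1 : ℝ) ≤ H := by exact_mod_cast hH1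
  have hlN : 0 < Real.log N := Real.log_pos (by linarith)
  have hlH : 0 ≤ Real.log H := Real.log_nonneg hH1'
  have hlogX : Real.log X = Real.log α + k * Real.log N := by
    rw [hXd, Real.log_mul hα0.ne' (by positivity), Real.log_rpow hN0]
  have habs1 := neg_abs_le (Real.log α)
  have habs2 := le_abs_self (Real.log α)
  have habs0 := abs_nonneg (Real.log α)
  have hkN : Real.log N ≤ k * Real.log N := by nlinarith
  have hHX : (H : ℝ) ≤ X ^ (1 / 3 : ℝ) := by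
    have e : (H : ℝ) = Real.exp (Real.log H) := (Real.exp_log (by linarith)).symm
    have e2 : X ^ (1 / 3 : ℝ) = Real.exp (Real.log X * (1 / 3)) := Real.rpow_def_of_pos hX0 _
    rw [e, e2]
    apply Real.exp_le_exp.2
    have a1 : Real.log H ≤ c * Real.log N := by
      have := Real.log_le_log (by linarith) hHN
      rwa [Real.log_rpow hN0] at this
    have a3 : Real.log N / 4 ≤ Real.log X * (1 / 3) := by
      rw [hlogX]
      linarith
    nlinarith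
  have hvar := hvl X H h5' hH1' hHX
  -- the integral
  obtain ⟨g, hg⟩ : ∃ g : ℝ → ℝ, g = fun x => (PP H ⌊2 * x⌋₊ - H) ^ 2 := ⟨_, rfl⟩
  have hgm : Measurable g := by
    rw [hg]
    exact (measurable_from_nat (f := fun m : ℕ => (PP H m - H) ^ 2)).comp (Nat.measurable_floor.comp (by fun_prop))
  have hg0 : ∀ x, 0 ≤ g x := by
    intro x
    rw [hg]
    exact sq_nonneg _
  obtain ⟨Q, hQ⟩ : ∃ Q, Q = ∑ m ∈ range (⌊2 * X⌋₊ + 1), (PP H m - H) ^ 2 := ⟨_, rfl⟩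
  have hgM : ∀ x, x ≤ X → g x ≤ Q := by
    intro x hx
    rw [hg, hQ]
    refine Finset.single_le_sum (f := fun m => (PP H m - (H : ℝ)) ^ 2) (fun _ _ => sq_nonneg _) ?_
    rw [Finset.mem_range, Nat.lt_succ_iff]
    exact Nat.floor_le_floor (by linarith)
  have hlow := int_lower (M := Q) hk hα0 N hN1' g hgm hg0 (fun x _ hx => hgM x (by rw [hXd]; exact hx))
  rw [← hXd] at hlow
  have e1 : ∫ u in (0 : ℝ)..N, g (α * u ^ k) = ∫ u in (0 : ℝ)..N, (H321VP.psi (α * u ^ k) H - H) ^ 2 := by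
    apply intervalIntegral.integral_congr_ae
    filter_upwards [ae_nonint' k hk0 α hα0] with u hu hu2
    rw [Set.uIoc_of_le (Nat.cast_nonneg N)] at hu2
    have hu0 := hu2.1
    rw [hg, psi_PP (by positivity) H (hu hu0)]
  have e2 : ∫ x in (1 : ℝ)..X, g x = ∫ x in (1 : ℝ)..X, (H321VP.psi x H - H) ^ 2 := by
    apply intervalIntegral.integral_congr_ae
    have h := ae_nonint' 1 one_pos 1 one_pos
    filter_upwards [h] with x hx hx2
    rw [Set.uIoc_of_le h5] at hx2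
    have hx0 : 0 < x := by linarith [hx2.1]
    have hx3 := hx hx0
    rw [Real.rpow_one, one_mul] at hx3
    rw [hg, psi_PP hx0.le H hx3]
  have hgi : ∀ a b : ℝ, 0 ≤ a → a ≤ b → b ≤ X → IntervalIntegrable g volume a b := by
    intro a b _ hab hbX
    rw [intervalIntegrable_iff, Set.uIoc_of_le hab]
    refine Measure.integrableOn_of_bounded (M := Q) (by simp) hgm.aestronglyMeasurable ?_
    refine (ae_restrict_iff' measurableSet_Ioc).2 (Filter.Eventually.of_forall fun x hx => ?_)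
    rw [Real.norm_eq_abs, abs_of_nonneg (hg0 _)]
    exact hgM x (hx.2.trans hbX)
  have e3 : ∫ x in (1 : ℝ)..X, g x ≤ ∫ x in (0 : ℝ)..X, g x := by
    rw [← intervalIntegral.integral_add_adjacent_intervals (hgi 0 1 le_rfl zero_le_one h5) (hgi 1 X zero_le_one h5 le_rfl)]
    have : 0 ≤ ∫ x in (0 : ℝ)..1, g x := intervalIntegral.integral_nonneg zero_le_one fun x _ => hg0 x
    linarith
  have h7 : H * X * (1 / 2 * Real.log X - 3 / 2 * Real.log H - min (ε / 4) 1 * Real.log X) ≤ ∫ x in (0 : ℝ)..X, g x := by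
    refine le_trans ?_ e3
    rw [e2]
    exact hvar
  have h8 : (N : ℝ) / (k * X) * (H * X * (1 / 2 * Real.log X - 3 / 2 * Real.log H - min (ε / 4) 1 * Real.log X)) ≤
      ∫ u in (0 : ℝ)..N, (H321VP.psi (α * u ^ k) H - H) ^ 2 := by
    rw [← e1]
    exact (mul_le_mul_of_nonneg_left h7 (by positivity)).trans hlow
  have h9 : (N : ℝ) / (k * X) * (H * X * (1 / 2 * Real.log X - 3 / 2 * Real.log H - min (ε / 4) 1 * Real.log X)) =
      N * H * ((1 / 2 * Real.log X - min (ε / 4) 1 * Real.log X) / k - 3 / (2 * k) * Real.log H) := by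
    field_simp
    ring
  obtain ⟨η, hη⟩ : ∃ η, η = min (ε / 4) 1 := ⟨_, rfl⟩
  have hη0 : 0 < η := by
    rw [hη]
    positivity
  have hη1 : η ≤ 1 := by
    rw [hη]
    exact min_le_right _ _
  have hηε : η ≤ ε / 4 := by
    rw [hη]
    exact min_le_left _ _
  rw [h9, ← hη] at h8
  have h10 : (1 / 2 - ε / 2) * Real.log N ≤ (1 / 2 * Real.log X - η * Real.log X) / k := by
    rw [le_div_iff₀ hk0, hlogX]
    have b1 : 8 * |Real.log α| ≤ ε * Real.log N := by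
      rw [div_le_iff₀ hε] at h3
      linarith
    have b2 : η * Real.log α ≤ |Real.log α| := by
      calc η * Real.log α ≤ η * |Real.log α| := mul_le_mul_of_nonneg_left habs2 hη0.le
        _ ≤ 1 * |Real.log α| := mul_le_mul_of_nonneg_right hη1 habs0
        _ = _ := one_mul _
    have b3 : η * (k * Real.log N) ≤ ε / 4 * (k * Real.log N) := mul_le_mul_of_nonneg_right hηε (by positivity)
    have b4 : ε * Real.log N ≤ ε * (k * Real.log N) := mul_le_mul_of_nonneg_left hkN hε.le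
    nlinarith
  -- the error
  have h11 : (N : ℝ) ^ (1 - c0) ≤ N * H * (ε / 4 * Real.log N) := by
    rw [pow_zero, mul_one] at h4
    have b0 : (0 : ℝ) < (N : ℝ) ^ c0 := by positivity
    rw [Real.rpow_sub hN0, Real.rpow_one, div_le_iff₀ b0]
    have b1 : 1 ≤ ε / 4 * (N : ℝ) ^ c0 := by
      rw [div_le_iff₀ hε] at h4
      linarith
    calc (N : ℝ) = N * 1 * (1 * 1) := by ring
      _ ≤ N * H * (ε / 4 * (N : ℝ) ^ c0 * Real.log N) := by gcongr
      _ = _ := by ring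
  -- conclusion
  have h12 := h1 H (hHN.trans (Real.rpow_le_rpow_of_exponent_le hN1 hcc0))
  have e4 : ∑ n ∈ Icc 1 N, ((((H321VP.psi (α * (n : ℝ) ^ k) H - H) ^ 2 : ℝ)) : ℂ) =
      ((∑ n ∈ Icc 1 N, (H321VP.psi (α * (n : ℝ) ^ k) H - H) ^ 2 : ℝ) : ℂ) := by
    push_cast
    rfl
  rw [e4, intervalIntegral.integral_ofReal, ← Complex.ofReal_sub, Complex.norm_real, Real.norm_eq_abs] at h12
  have h13 := (abs_le.1 h12).1
  have h14 : N * H * ((1 / 2 - ε / 2) * Real.log N - 3 / (2 * k) * Real.log H) ≤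
      ∫ u in (0 : ℝ)..N, (H321VP.psi (α * u ^ k) H - H) ^ 2 := by
    refine le_trans ?_ h8
    apply mul_le_mul_of_nonneg_left _ (by positivity)
    linarith
  simp only [sq_abs]
  have h15 : (0 : ℝ) ≤ N * H * (ε * Real.log N) := by positivity
  have h16 : N * H * ((1 / 2 - ε) * Real.log N - 3 / (2 * k) * Real.log H) =
      N * H * ((1 / 2 - ε / 2) * Real.log N - 3 / (2 * k) * Real.log H) - N * H * (ε * Real.log N) / 2 := by ring
  have h17 : N * H * (ε / 4 * Real.log N) = N * H * (ε * Real.log N) / 4 := by ring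
  linarith

end Pool.Agent.D0H91.US
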